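import Mathlib

/-! Corestriction of cocycles, abstractly. -/

set_option autoImplicit false

namespace Pool.Agent.Y213.CT

section abs

variable {G H A AF I : Type} [Group G] [Group H] [AddCommGroup A] [AddCommGroup AF] [Fintype I]

/-- the corestriction -/
noncomputable def cor (op : G → I → I) (h : G → I → H) (J : I → (AF →+ A)) (ξ : H → AF) (g : G) :
    A := ∑ ε, J (op g ε) (ξ (h g ε))

theorem cor_mul (op : G → I → I) (hop : ∀ g g' ε, op (g * g') ε = op g (op g' ε))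
    (hbij : ∀ g, Function.Bijective (op g)) (h : G → I → H)
    (hh : ∀ g g' ε, h (g * g') ε = h g (op g' ε) * h g' ε) (J : I → (AF →+ A))
    (aF : H → (AF →+ AF)) (act : G → (A →+ A))
    (hJ : ∀ g ε x, J (op g ε) (aF (h g ε) x) = act g (J ε x)) (ξ : H → AF)
    (hξ : ∀ u v, ξ (u * v) = ξ u + aF u (ξ v)) (g g' : G) :
    cor op h J ξ (g * g') = cor op h J ξ g + act g (cor op h J ξ g') := by
  unfold cor
  have h1 : ∀ ε, J (op (g * g') ε) (ξ (h (g * g') ε)) =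
      J (op g (op g' ε)) (ξ (h g (op g' ε))) + act g (J (op g' ε) (ξ (h g' ε))) := by
    intro ε
    rw [hh, hξ, map_add, hop, hJ]
  rw [Finset.sum_congr rfl (fun ε _ => h1 ε), Finset.sum_add_distrib, ← map_sum]
  congr 1
  exact (Equiv.ofBijective _ (hbij g')).sum_comp (fun ε => J (op g ε) (ξ (h g ε)))

variable {B : Type} [AddCommGroup B]

theorem loc_abs (aF : H → (AF →+ AF)) (ξ : H → AF) (hξ : ∀ u v, ξ (u * v) = ξ u + aF u (ξ v))
    (J J' : AF →+ A) (hg : H) (act : A →+ A) (hJ : ∀ x, J' (aF hg x) = act (J x))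
    (Λ : A →+ B) (sg : B →+ B) (hΛ : ∀ a, Λ (act a) = sg (Λ a)) (u u' : H) (R R' : B)
    (haF : ∀ x, aF u' (aF (u'⁻¹ * hg * u) x) = aF hg (aF u x))
    (hloc : Λ (J' (aF u' (ξ (u'⁻¹ * hg * u)))) = sg R - R') :
    Λ (J' (ξ hg)) = sg (R - Λ (J (ξ u))) - (R' - Λ (J' (ξ u'))) := by
  have h1 : ξ (hg * u) = ξ u' + aF u' (ξ (u'⁻¹ * hg * u)) := by
    rw [← hξ]
    congr 1
    group
  rw [hξ] at h1
  have h2 : ξ hg = ξ u' + aF u' (ξ (u'⁻¹ * hg * u)) - aF hg (ξ u) := by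
    rw [← h1]
    abel
  rw [h2, map_sub, map_add, hJ, map_sub, map_add, hloc, hΛ, map_sub]
  abel

theorem cor_local (op : G → I → I) (hbij : ∀ g, Function.Bijective (op g)) (h : G → I → H)
    (J : I → (AF →+ A)) (ξ : H → AF) (Λ : A →+ B) (sg : B →+ B) (g : G) (R : I → B)
    (hR : ∀ ε, Λ (J (op g ε) (ξ (h g ε))) = sg (R ε) - R (op g ε)) :
    Λ (cor op h J ξ g) = sg (∑ ε, R ε) - ∑ ε, R ε := by
  unfold cor
  rw [map_sum, Finset.sum_congr rfl (fun ε _ => hR ε), Finset.sum_sub_distrib, map_sum]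
  congr 1
  exact (Equiv.ofBijective _ (hbij g)).sum_comp R

theorem cor_smul (op : G → I → I) (h : G → I → H) (J : I → (AF →+ A)) (ξ : H → AF) (N : ℕ)
    (hN : ∀ u, N • ξ u = 0) (g : G) : N • cor op h J ξ g = 0 := by
  unfold cor
  rw [Finset.smul_sum]
  refine Finset.sum_eq_zero fun ε _ => ?_
  rw [← map_nsmul, hN, map_zero]

end abs

end Pool.Agent.Y213.CT
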