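import Pool.Agent.Y213.CT.FinT
import Pool.Agent.Y304.CT.Emb
import Pool.Agent.Y37.CT.Uni
import Pool.Agent.Y564.CT.Plc

/-! The hypotheses of project CT are theorems. -/

set_option autoImplicit false

namespace Pool.Agent.Y213.CT

theorem tEmb : StEmb := Pool.Agent.Y304.CT.emb
theorem tGal : StGal := Pool.Agent.Y37.CT.gal
theorem tUni : StUni := Pool.Agent.Y37.CT.uni
theorem tPlc : StPlc := Pool.Agent.Y564.CT.plc

end Pool.Agent.Y213.CT
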