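import Pool.Agent.Y213.CT.Fld

/-! Corestriction of cocycles with values in the points of an elliptic curve. -/

set_option autoImplicit false

namespace Pool.Agent.Y213.CT

open MvPolynomial NumberField Pool.Agent.H901R3.MS WeierstrassCurve IsDedekindDomain
open Pool.Agent.Y213.EC Pool.Agent.TH954 Pool.Agent.TH942 Pool.Agent.Y213.BD
open Pool.Agent.Y213.T6 (loc_valG bc_eq shortInt_sw)

theorem disc_mp {k k' : Type} [Field k] [Field k'] (f : k →+* k') {a b : k} (hd : Disc a b) :
    Disc (f a) (f b) := by
  unfold Disc at hd ⊢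
  have h := (map_ne_zero f).2 hd
  rw [map_mul, map_add, map_mul, map_mul, map_pow, map_pow, map_ofNat, map_ofNat,
    map_ofNat] at h
  exact h

section cor

variable {K F : Type} [Field K] [Field F] [Algebra K F] [FiniteDimensional K F]

/-- the curve over `F` -/
abbrev EF (a b : K) (F : Type) [Field F] [Algebra K F] : WeierstrassCurve F :=
  sw (algebraMap K F a) (algebraMap K F b)

open scoped Classical in
theorem exists_J (a b : K) (hd : Disc a b) (ε : Emb K F) :
    ∃ J : AlgPt (EF a b F) F →+ AlgPt (sw a b) K, MapsTo (TT ε : _ →+* AlgebraicClosure K) J := by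
  refine exists_mapsTo _ _ (bc_eq _ _ _) (bc_eq _ _ _) _ ?_ ?_ (disc_mp (algebraMap K _) hd)
  · exact (TT_apply ε _).trans (ε.commutes a)
  · exact (TT_apply ε _).trans (ε.commutes b)

open scoped Classical in
/-- the transport of points -/
noncomputable def JJ (a b : K) (hd : Disc a b) (ε : Emb K F) :
    AlgPt (EF a b F) F →+ AlgPt (sw a b) K := (exists_J a b hd ε).choose

open scoped Classical in
theorem JJ_spec (a b : K) (hd : Disc a b) (ε : Emb K F) :
    MapsTo (TT ε : _ →+* AlgebraicClosure K) (JJ a b hd ε) := (exists_J a b hd ε).choose_spec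

open scoped Classical in
/-- the action as a homomorphism -/
noncomputable def actH {k : Type} [Field k] (E : WeierstrassCurve k) {L : Type} [Field L]
    [Algebra k L] (σ : AlgebraicClosure L ≃ₐ[L] AlgebraicClosure L) : AlgPt E L →+ AlgPt E L :=
  pm E ((σ : AlgebraicClosure L →ₐ[L] AlgebraicClosure L).restrictScalars k)

theorem act_mapsTo {k : Type} [Field k] (E : WeierstrassCurve k) {L : Type} [Field L]
    [Algebra k L] (σ : AlgebraicClosure L ≃ₐ[L] AlgebraicClosure L) :
    MapsTo (σ : AlgebraicClosure L →+* AlgebraicClosure L) (act E σ) := by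
  classical
  exact fun P j => crd_pm _ P j

open scoped Classical in
theorem JJ_hh (a b : K) (hd : Disc a b) (g : AlgebraicClosure K ≃ₐ[K] AlgebraicClosure K)
    (ε : Emb K F) (x : AlgPt (EF a b F) F) :
    JJ a b hd (op g ε) (act (EF a b F) (hh g ε) x) = act (sw a b) g (JJ a b hd ε x) :=
  mapsTo_sq (act_mapsTo _ _) (JJ_spec a b hd (op g ε)) (JJ_spec a b hd ε) (act_mapsTo _ _)
    (fun z => TT_hh g ε z) x

open scoped Classical in
noncomputable instance : Fintype (Emb K F) := Fintype.ofFinite _

open scoped Classical in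
/-- the corestriction of the cocycle `ξ` -/
noncomputable def CC (a b : K) (hd : Disc a b)
    (ξ : (AlgebraicClosure F ≃ₐ[F] AlgebraicClosure F) → AlgPt (EF a b F) F) :
    (AlgebraicClosure K ≃ₐ[K] AlgebraicClosure K) → AlgPt (sw a b) K :=
  cor op hh (JJ a b hd) ξ

open scoped Classical in
theorem cc_cocycle (a b : K) (hd : Disc a b)
    (ξ : (AlgebraicClosure F ≃ₐ[F] AlgebraicClosure F) → AlgPt (EF a b F) F)
    (hξ : IsCocycle (EF a b F) ξ) : IsCocycle (sw a b) (CC a b hd ξ) := by
  refine ⟨fun σ τ => ?_, ?_⟩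
  · exact cor_mul op op_mul op_bij hh hh_mul (JJ a b hd) (actH (EF a b F)) (actH (sw a b))
      (fun g ε x => JJ_hh a b hd g ε x) ξ hξ.1 σ τ
  · obtain ⟨F', hF', h⟩ := hξ.2
    haveI := hF'
    haveI : FiniteDimensional K (F'.restrictScalars K) :=
      (FiniteDimensional.trans K F F' : FiniteDimensional K F')
    let S : Emb K F → IntermediateField K (AlgebraicClosure K) := fun ε =>
      (F'.restrictScalars K).map
        ({ toRingHom := (TT ε : AlgebraicClosure F →+* AlgebraicClosure K)
           commutes' := fun x => by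
            change TT ε (algebraMap K (AlgebraicClosure F) x) = _
            rw [IsScalarTower.algebraMap_apply K F (AlgebraicClosure F), TT_apply, ε.commutes] } :
          AlgebraicClosure F →ₐ[K] AlgebraicClosure K)
    haveI : ∀ ε, FiniteDimensional K (S ε) := fun ε =>
      finite_map (E := F'.restrictScalars K) inferInstance _
    refine ⟨⨆ ε, S ε, IntermediateField.finiteDimensional_iSup_of_finite, ?_⟩
    intro σ τ hστ
    have hmem : ∀ ε, ∀ x ∈ F', TT ε x ∈ ⨆ ε, S ε := by
      intro ε x hx
      have h1 : TT ε x ∈ S ε := ⟨x, hx, rfl⟩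
      exact (le_iSup S ε) h1
    have hop : ∀ ε : Emb K F, op σ ε = op τ ε := by
      intro ε
      apply AlgHom.ext
      intro x
      rw [op_apply, op_apply, ← TT_apply ε x]
      exact hστ _ (hmem ε _ (F'.algebraMap_mem x))
    have hhe : ∀ ε : Emb K F, ξ (hh σ ε) = ξ (hh τ ε) := by
      intro ε
      apply h
      intro x hx
      apply (TT (op σ ε)).injective
      rw [TT_hh, hop ε, TT_hh]
      exact hστ _ (hmem ε x hx)
    change cor op hh (JJ a b hd) ξ σ = cor op hh (JJ a b hd) ξ τ
    unfold cor
    refine Finset.sum_congr rfl fun ε _ => ?_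
    rw [hop ε, hhe ε]

end cor

end Pool.Agent.Y213.CT
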