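import Pool.Agent.Y213.CT.All

/-! Families of closed subvarieties of `E ^ r`: traces of local points at one level. -/

set_option autoImplicit false

namespace Pool.Agent.Y213.CT

open MvPolynomial NumberField Pool.Agent.H901R3.MS WeierstrassCurve IsDedekindDomain
open Pool.Agent.Y213.EC Pool.Agent.TH954 Pool.Agent.TH942 Pool.Agent.Y213.BD
open Pool.Agent.Y213.CB Pool.Agent.W620.SC
open Pool.Agent.Y213.T6 (loc_valG bc_eq shortInt_sw)

open scoped LinearAlgebra.Projectivization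

theorem rdnL_mono {K : Type} [Field K] [NumberField K] {r n q : ℕ} (a b : 𝓞 K)
    (G : Fin q → Pol (𝓞 K) r n) (m L L' : ℕ) (hLL : L ∣ L')
    (y : Fin n → 𝓞 K) (s : Fin r → Pt (a : K) (b : K)) (h : RdnL a b G m L' y s) :
    RdnL a b G m L y s := by
  intro p _ φ hk
  refine h p φ ?_
  intro inst P
  obtain ⟨k, rfl⟩ := hLL
  rw [mul_comm, mul_smul, hk P, smul_zero]

/-- all integral multiples of `y` survive the sieve at the level `L` -/
def HS {K : Type} [Field K] [NumberField K] {r n q : ℕ} (a b : 𝓞 K)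
    (G : Fin q → Pol (𝓞 K) r n) (m L : ℕ) (y : Fin n → K) : Prop :=
  ∀ (u : K) (z : Fin n → 𝓞 K), u ≠ 0 → (∀ i, (z i : K) = u * y i) →
    ∃ s : Fin r → Pt (a : K) (b : K), RdnL a b G m L z s

open scoped Classical in
theorem hs_of_cover (hemb : StEmb) (hgal : StGal) (huni : StUni) (hplc : StPlc)
    {K : Type} [Field K] [NumberField K] {r n q m : ℕ} (a b : 𝓞 K)
    (hd : Disc (a : K) (b : K)) (G : Fin q → Pol (𝓞 K) r n)
    (d : Fin q → Fin r → ℕ) (kk : Fin q → ℕ) (hG : ∀ e, MHomog (G e) (d e))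
    (hX : ∀ e, XHomog (G e) (kk e)) {M0 : ℕ}
    (hM : ShaKilledBy (sw (a : K) (b : K)) M0)
    (F : Type) [Field F] [NumberField F] [Algebra K F] (hdeg : Module.finrank K F = m + 1)
    (y : Fin n → K) (L : ℕ)
    (ξ : Fin r → (AlgebraicClosure F ≃ₐ[F] AlgebraicClosure F) →
        AlgPt (EF (a : K) (b : K) F) F)
    (hξ : ∀ i, IsCocycle (EF (a : K) (b : K) F) (ξ i)) (hξN : ∀ i σ, (M0 * 2 * L) • ξ i σ = 0)
    (hcov : ∀ v : HeightOneSpectrum (𝓞 F),
        CoverPoint (EF (a : K) (b : K) F) (mbrF G F y) (M0 * 2 * L) ξ (v.adicCompletion F)) :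
    HS a b G m L y := by
  haveI : FiniteDimensional K F := Module.Finite.of_restrictScalars_finite ℚ K F
  intro u z hu hz
  obtain ⟨s, x, hx, htr⟩ := descend hemb hgal huni (a : K) (b : K) hd hM L (mbrF G F y) ξ hξ
    hξN hcov
  refine ⟨s, fun p _ φ hkill => ?_⟩
  refine memberT hplc a b hd G d hG F hdeg L z x ?_ s htr p φ (fun P => hkill P)
  intro w
  have h0 := (onX_mbrF G F _ _).1 (hx w)
  rw [onX_mbrF]
  intro e
  have h1 : (fun i => algebraMap F (w.adicCompletion F) (algebraMap K F ((z i : 𝓞 K) : K))) =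
      fun i => algebraMap F (w.adicCompletion F) (algebraMap K F u) *
        algebraMap F (w.adicCompletion F) (algebraMap K F (y i)) := by
    funext i
    rw [hz, map_mul, map_mul]
  rw [h1, vl_xscale _ (G e) (kk e) (hX e), h0 e, mul_zero]

theorem coreF1 (K : Type) [Field K] [NumberField K] (N : ℕ) (ω : Module.Basis (Fin N) ℤ (𝓞 K))
    (r n q m : ℕ) (a b : 𝓞 K) (hd : Disc (a : K) (b : K)) (G : Fin q → Pol (𝓞 K) r n)
    (d : Fin q → Fin r → ℕ) (hG : ∀ e, MHomog (G e) (d e)) (D : ℕ) (σ : K →+* ℂ)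
    (hns : ∀ (S : Fin r → Pt (toC σ a) (toC σ b)) (x : Fin (D + 1) → Fin n → ℂ), (∀ l, x l ≠ 0) →
      (∀ l, x l ∈ YS a b G m (toC σ) S) → ∃ l l', l ≠ l' ∧ ∃ c : ℂ, x l = c • x l')
    (ε : ℝ) (hε : 0 < ε) :
    ∃ H₀ : ℕ, 3 ≤ H₀ ∧ ∀ H : ℕ, H₀ ≤ H → ∃ (L : ℕ) (Z : Finset (ℙ K (Fin n → K))),
      1 ≤ L ∧ (L : ℝ) ≤ (H : ℝ) ^ ε ∧ (Z.card : ℝ) ≤ D * (H : ℝ) ^ ε ∧
      ∀ (c : Fin n × Fin N → ℤ) (h0 : (fun i => ((W659.SA.vec ω c i : 𝓞 K) : K)) ≠ 0),
        (∀ i, |c i| ≤ H) → (∃ s, RdnL a b G m L (W659.SA.vec ω c) s) →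
        Projectivization.mk K _ h0 ∈ Z := by
  classical
  have hFG : AddGroup.FG (Pt (a : K) (b : K)) := t_M1K K (a : K) (b : K) hd
  obtain ⟨R₀, hR⟩ := t_M2 (Pt (a : K) (b : K)) hFG
  obtain ⟨p₁, hp₁⟩ := trF K r n q m a b G d hG D σ (disc_of σ hd) hns
  obtain ⟨C₀, hC1, hC⟩ := Pool.Agent.W305.SA.DETF.main K N ω n D
  obtain ⟨H₀, hH₀, hmain⟩ := primesE K a b hd p₁ (R₀ * r + 1) C₀ ε hε
  refine ⟨H₀, hH₀, fun H hH => ?_⟩
  obtain ⟨T, L, hL, hT, hprod, hLR⟩ := hmain H hH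
  have hL1 : (1 : ℝ) ≤ L := by exact_mod_cast hL
  have hLR0 : (L : ℝ) ^ (R₀ * r) ≤ (H : ℝ) ^ ε :=
    (pow_le_pow_right₀ hL1 (Nat.le_succ _)).trans hLR
  have hLL : (L : ℝ) ≤ (H : ℝ) ^ ε := by
    refine le_trans ?_ hLR
    calc (L : ℝ) = (L : ℝ) ^ 1 := (pow_one _).symm
      _ ≤ (L : ℝ) ^ (R₀ * r + 1) := pow_le_pow_right₀ hL1 (by omega)
  obtain ⟨A, hAc, hAr⟩ := hR L hL
  choose κ₀ hκ₀ δ₀ hδ₀ using hAr
  -- the points of a class
  let P : (Fin r → A) → Set (ℙ K (Fin n → K)) := fun κ => {y | ∃ c : Fin n × Fin N → ℤ,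
    (∀ i, |c i| ≤ H) ∧
    ∃ h : (fun i => ((W659.SA.vec ω c i : 𝓞 K) : K)) ≠ 0, y = Projectivization.mk K _ h ∧
      ∃ s : Fin r → Pt (a : K) (b : K), RdnL a b G m L (W659.SA.vec ω c) s ∧
          ∀ i, κ i = ⟨κ₀ (s i), hκ₀ (s i)⟩}
  have key : ∀ κ : Fin r → A, ∃ Z : Finset (ℙ K (Fin n → K)), Z.card ≤ D ∧ P κ ⊆ Z := by
    intro κ
    apply pick
    intro f hf
    choose c hc hne hmk s hs hκ using hf
    have h1 : ∀ l, ∃ i, W659.SA.vec ω (c l) i ≠ 0 := by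
      intro l
      obtain ⟨i, hi⟩ := Function.ne_iff.1 (hne l)
      refine ⟨i, fun h => hi ?_⟩
      simp only [h, Pi.zero_apply]
      simp
    obtain ⟨l, l', hll, z, hz⟩ := hC H T (fun p hp => by
        obtain ⟨_, hF, _⟩ := hT p hp
        exact hF.out) hprod c hc h1 (by
      intro p hp
      obtain ⟨hp1, hF, φ, hdφ, hkill⟩ := hT p hp
      haveI := hF
      haveI : CharP (AlgebraicClosure (ZMod p)) p :=
        charP_of_injective_ringHom (cc p).injective p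
      obtain ⟨S, hS⟩ := red_classC K (m := m) a b G L (fun i => (κ i).1) p φ hdφ hkill
      refine ⟨AlgebraicClosure (ZMod p), inferInstance, inferInstance, (cc p).comp φ, ?_⟩
      by_cases h0 : ∃ l, ∀ i, (cc p).comp φ (W659.SA.vec ω (c l) i) = 0
      · exact Or.inl h0
      right
      push Not at h0
      obtain ⟨l, l', hll, z, hz⟩ := hp₁ p hF.out (by omega) (AlgebraicClosure (ZMod p))
        ((cc p).comp φ) S (fun l i => (cc p).comp φ (W659.SA.vec ω (c l) i)) (fun l h => by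
          obtain ⟨i, hi⟩ := h0 l
          exact hi (congrFun h i)) (fun l => by
          refine hS (W659.SA.vec ω (c l)) (s l) (hs l p φ (fun {_} P => kill_any L _ _ hkill P)) fun i => ⟨δ₀ (s l i), ?_⟩
          rw [hκ l i]
          exact hδ₀ (s l i))
      exact ⟨l, l', hll, z, fun i => congrFun hz i⟩)
    refine ⟨l, l', hll, ?_⟩
    rw [hmk l, hmk l', Projectivization.mk_eq_mk_iff']
    refine ⟨z, ?_⟩
    funext i
    exact (hz i).symm
  choose Z hZ1 hZ2 using key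
  refine ⟨L, (Finset.univ : Finset (Fin r → A)).biUnion Z, hL, hLL, ?_, ?_⟩
  · have h1 : ((Finset.univ : Finset (Fin r → A)).biUnion Z).card ≤ D * L ^ (R₀ * r) := by
      refine Finset.card_biUnion_le.trans ?_
      have hQ : Fintype.card (Fin r → A) ≤ L ^ (R₀ * r) := by
        rw [Fintype.card_fun, Fintype.card_fin, Fintype.card_coe, pow_mul]
        exact Nat.pow_le_pow_left hAc r
      calc ∑ x : Fin r → A, (Z x).card ≤ ∑ _x : Fin r → A, D :=
            Finset.sum_le_sum fun x _ => hZ1 x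
        _ = Fintype.card (Fin r → A) * D := by
            rw [Finset.sum_const, Finset.card_univ, smul_eq_mul]
        _ ≤ L ^ (R₀ * r) * D := Nat.mul_le_mul_right _ hQ
        _ = D * L ^ (R₀ * r) := mul_comm _ _
    have h2 : ((((Finset.univ : Finset (Fin r → A)).biUnion Z).card : ℕ) : ℝ) ≤
        D * (L : ℝ) ^ (R₀ * r) := by
      exact_mod_cast h1
    exact h2.trans (mul_le_mul_of_nonneg_left hLR0 (Nat.cast_nonneg _))
  · intro c h0 hc hdeg
    obtain ⟨s, hs⟩ := hdeg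
    rw [Finset.mem_biUnion]
    exact ⟨fun i => ⟨κ₀ (s i), hκ₀ (s i)⟩, Finset.mem_univ _,
      hZ2 _ ⟨c, hc, h0, rfl, s, hs, fun i => rfl⟩⟩


end Pool.Agent.Y213.CT
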