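import Pool.Agent.Y213.CT.FinS

/-! Effective zero-cycles over the completions. -/

set_option autoImplicit false

namespace Pool.Agent.Y213.CT

open MvPolynomial NumberField Pool.Agent.H901R3.MS WeierstrassCurve IsDedekindDomain
open Pool.Agent.Y213.EC Pool.Agent.TH954 Pool.Agent.TH942 Pool.Agent.Y213.BD
open Pool.Agent.Y213.CB
open Pool.Agent.Y213.T6 (loc_valG bc_eq shortInt_sw mbr onX_mbr)

open scoped Classical in
/-- the points `T` over the completions are locally given by the classes `ξ` killed by `N` -/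
def SelSum {K : Type} [Field K] [NumberField K] (E : WeierstrassCurve K) {r : ℕ} (N : ℕ)
    (ξ : Fin r → (AlgebraicClosure K ≃ₐ[K] AlgebraicClosure K) → AlgPt E K)
    (T : ∀ v : HeightOneSpectrum (𝓞 K), Fin r →
      (E.baseChange (v.adicCompletion K)).toAffine.Point) : Prop :=
  (∀ i, IsCocycle E (ξ i)) ∧ (∀ i σ, N • ξ i σ = 0) ∧
  ∀ v : HeightOneSpectrum (𝓞 K),
    ∃ (ι : AlgebraicClosure K →ₐ[K] AlgebraicClosure (v.adicCompletion K))
      (Q : Fin r → AlgPt E (v.adicCompletion K)),
      (∀ i, N • Q i = incl E (v.adicCompletion K) (T v i)) ∧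
      ∀ i σ τ, Compat ι σ τ → pm E ι (ξ i τ) = act E σ (Q i) - Q i

open scoped Classical in
theorem descendK {K : Type} [Field K] [NumberField K] (a b : K) {M0 : ℕ}
    (hM : ShaKilledBy (sw a b) M0) (N : ℕ) {r : ℕ}
    (ξ : Fin r → (AlgebraicClosure K ≃ₐ[K] AlgebraicClosure K) → AlgPt (sw a b) K)
    (T : ∀ v : HeightOneSpectrum (𝓞 K), Fin r →
      ((sw a b).baseChange (v.adicCompletion K)).toAffine.Point)
    (h : SelSum (sw a b) (M0 * 2 * N) ξ T) :
    ∃ s : Fin r → SPt a b, ∀ v i, ∃ z,
      T v i - locHom (L := v.adicCompletion K) (sw a b) (s i) = N • z := by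
  obtain ⟨hξ, hξN, hloc⟩ := h
  choose ι Q hQ hl using hloc
  have hRex : ∀ i, ∃ R : AlgPt (sw a b) K, ∀ σ, (M0 * 2) • ξ i σ = act (sw a b) σ R - R := by
    intro i
    have hco2 : IsCocycle (sw a b) (fun σ => 2 • ξ i σ) := by
      refine ⟨fun σ τ => ?_, ?_⟩
      · change 2 • ξ i (σ * τ) = 2 • ξ i σ + act (sw a b) σ (2 • ξ i τ)
        rw [(hξ i).1 σ τ, ns_add, act_nsmul]
      · obtain ⟨F', hF, h⟩ := (hξ i).2
        exact ⟨F', hF, fun σ τ hστ => by
          change 2 • ξ i σ = 2 • ξ i τ
          rw [h σ τ hστ]⟩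
    obtain ⟨R', hR'⟩ := hM (fun σ => 2 • ξ i σ) hco2 (fun v => by
      refine ⟨ι v, 2 • Q v i, fun σ τ hστ => ?_⟩
      change pm (sw a b) _ (2 • ξ i τ) = _
      rw [map_nsmul, hl v i σ τ hστ, act_nsmul, ns_sub]) (fun w =>
      trivial_two (hξ i).1 w.Completion (twoGal_inf w))
    refine ⟨R', fun σ => ?_⟩
    rw [← hR' σ, ns_mul]
  choose RR hRR using hRex
  have hyex : ∀ i, ∃ y : SPt a b, incl (sw a b) K y = N • RR i := by
    intro i
    refine exists_of_fixed (L := K) (N • RR i) (fun σ => ?_)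
    have e1 : act (sw a b) σ (RR i) = RR i + (M0 * 2) • ξ i σ := by
      rw [hRR i σ]
      abel
    rw [act_nsmul, e1, ns_add, ← ns_mul, mul_comm N (M0 * 2), hξN, add_zero]
  choose y hy using hyex
  refine ⟨y, fun v i => ?_⟩
  have hch : CharZero (v.adicCompletion K) :=
    charZero_of_injective_algebraMap (algebraMap K (v.adicCompletion K)).injective
  exact local_step (M := M0 * 2) (N := N) (Q := Q v i) (ι := ι v) (R := RR i) (hQ v i)
    (fun σ τ h => hl v i σ τ h) (hRR i) (hy i)

open scoped Classical in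
theorem memberCy (hplc : StPlc) {K : Type} [Field K] [NumberField K] {r n q m : ℕ} (a b : 𝓞 K)
    (G : Fin q → Pol (𝓞 K) r n)
    (d : Fin q → Fin r → ℕ) (hG : ∀ e, MHomog (G e) (d e)) (N : ℕ) (y : Fin n → 𝓞 K)
    (s : Fin r → SPt (a : K) (b : K))
    (hs : ∀ v : HeightOneSpectrum (𝓞 K), ∃ (P : Fin (m + 1) → Fin r →
        AlgPt (sw (a : K) (b : K)) (v.adicCompletion K))
      (T z : Fin r → ((sw (a : K) (b : K)).baseChange (v.adicCompletion K)).toAffine.Point),
      (∀ j, OnX (mbr G (fun i => (y i : K))) (fun i => crd (P j i))) ∧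
      (∀ i, ∑ j, P j i = incl (sw (a : K) (b : K)) (v.adicCompletion K) (T i)) ∧
      ∀ i, T i - locHom (L := v.adicCompletion K) (sw (a : K) (b : K)) (s i) = N • z i)
    (p : ℕ) [Fact p.Prime] (φ : 𝓞 K →+* ZMod p) (hkill : ∀ P : Pt (φ a) (φ b), N • P = 0) :
    RdnAt a b G m p φ y s := by
  intro wK hwK redK hredK k _ _ c hdc jc hjc
  have hp : p ≠ 0 := (Fact.out : p.Prime).ne_zero
  haveI : CharP k p := charP_of_injective_ringHom c.injective p
  obtain ⟨P, T, z, hPX, hT, hz⟩ := hs (hspG p hp φ)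
  obtain ⟨pl, hpl, hplv⟩ := hplc K p hp φ k c
  have hplK : ∀ x : 𝓞 K, algebraMap K (AlgebraicClosure ((hspG p hp φ).adicCompletion K)) (x : K) ∈ pl.A ∧
      pl.r (algebraMap K (AlgebraicClosure ((hspG p hp φ).adicCompletion K)) (x : K)) = c.comp φ x := by
    intro x
    have h1 := hpl x
    rw [← IsScalarTower.algebraMap_apply K ((hspG p hp φ).adicCompletion K)
      (AlgebraicClosure ((hspG p hp φ).adicCompletion K))] at h1
    exact h1
  obtain ⟨red, hred1, hred2, hred3⟩ := exists_redW' pl
    (a := algebraMap K (AlgebraicClosure ((hspG p hp φ).adicCompletion K)) (a : K))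
    (b := algebraMap K (AlgebraicClosure ((hspG p hp φ).adicCompletion K)) (b : K))
    (a' := c.comp φ a) (b' := c.comp φ b) (hplK a).1 (hplK b).1 (hplK a).2 (hplK b).2 hdc
    ((sw (a : K) (b : K)).baseChange (AlgebraicClosure ((hspG p hp φ).adicCompletion K))) (bc_eq _ _ _)
  -- points over the completion of `K`
  have hkv : ∀ P : ((sw (a : K) (b : K)).baseChange ((hspG p hp φ).adicCompletion K)).toAffine.Point,
      N • red (incl (sw (a : K) (b : K)) ((hspG p hp φ).adicCompletion K) P) = 0 := by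
    intro P
    rcases P with _ | ⟨X, Y, h⟩
    · have h0 : incl (sw (a : K) (b : K)) ((hspG p hp φ).adicCompletion K) Affine.Point.zero = 0 := rfl
      rw [h0, map_zero, smul_zero]
    · obtain ⟨h', h1⟩ : ∃ h', incl (sw (a : K) (b : K)) ((hspG p hp φ).adicCompletion K)
          (Affine.Point.some X Y h) = Affine.Point.some
            (algebraMap ((hspG p hp φ).adicCompletion K) (AlgebraicClosure ((hspG p hp φ).adicCompletion K)) X)
            (algebraMap ((hspG p hp φ).adicCompletion K) (AlgebraicClosure ((hspG p hp φ).adicCompletion K)) Y) h' :=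
        ⟨_, rfl⟩
      rw [h1]
      by_cases hX : algebraMap ((hspG p hp φ).adicCompletion K)
          (AlgebraicClosure ((hspG p hp φ).adicCompletion K)) X ∈ pl.A
      · obtain ⟨hY, g, hg⟩ := hred2 _ _ h' hX
        obtain ⟨X', hX'⟩ := hplv X hX
        obtain ⟨Y', hY'⟩ := hplv Y hY
        have hd' : Disc (φ a) (φ b) := by
          unfold Disc at hdc ⊢
          intro h0
          apply hdc
          have h2 := congrArg c h0
          rw [map_mul, map_add, map_mul, map_mul, map_pow, map_pow, map_ofNat, map_ofNat,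
            map_ofNat, map_zero] at h2
          exact h2
        have hns : (CV (φ a) (φ b)).toAffine.Nonsingular X' Y' := by
          rw [nonsingular_iff hd']
          rw [nonsingular_iff hdc] at g
          unfold Eqn at g ⊢
          rw [hX', hY'] at g
          apply c.injective
          rw [map_pow, map_add, map_add, map_pow, map_mul]
          exact g
        obtain ⟨g', hg'⟩ := hjc X' Y' hns
        have h2 : red (Affine.Point.some _ _ h') = jc (Affine.Point.some X' Y' hns) := by
          rw [hg, hg', Affine.Point.some.injEq]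
          exact ⟨hX', hY'⟩
        rw [h2, ← map_nsmul, hkill, map_zero]
      · rw [hred1 _ _ h' hX]
        exact smul_zero _
  -- the global points
  have hglob : ∀ Q : SPt (a : K) (b : K),
      red (incl (sw (a : K) (b : K)) ((hspG p hp φ).adicCompletion K)
        (locHom (L := (hspG p hp φ).adicCompletion K) (sw (a : K) (b : K)) Q)) = jc (redK Q) := by
    intro Q
    obtain ⟨w₀, hw₀⟩ := exists_place K k p hp (c.comp φ)
    obtain ⟨red₀, hred₀⟩ := exists_red w₀ (a := (a : K)) (b := (b : K))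
      (a' := c.comp φ a) (b' := c.comp φ b) (hw₀ a).1 (hw₀ b).1 (hw₀ a).2 (hw₀ b).2 hdc
    have h1 : incl (sw (a : K) (b : K)) ((hspG p hp φ).adicCompletion K)
        (locHom (L := (hspG p hp φ).adicCompletion K) (sw (a : K) (b : K)) Q) =
        locHom (L := AlgebraicClosure ((hspG p hp φ).adicCompletion K)) (sw (a : K) (b : K)) Q := by
      apply crd_inj
      intro j
      have e1 : crd (incl (sw (a : K) (b : K)) ((hspG p hp φ).adicCompletion K)
        (locHom (L := (hspG p hp φ).adicCompletion K) (sw (a : K) (b : K)) Q)) j =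
          algebraMap ((hspG p hp φ).adicCompletion K) (AlgebraicClosure ((hspG p hp φ).adicCompletion K))
            (crd (locHom (L := (hspG p hp φ).adicCompletion K) (sw (a : K) (b : K)) Q) j) := crd_pm _ _ j
      rw [e1, crd_loc', crd_loc', ← IsScalarTower.algebraMap_apply]
    rw [h1, red_loc K p hp (c.comp φ) w₀ hw₀ (AlgebraicClosure ((hspG p hp φ).adicCompletion K)) pl hplK
      hred₀ red (map_zero red) (fun x y h hx => hred1 x y h hx)
      (fun x y h hx => (hred2 x y h hx).2) Q]
    exact red_cmp K (ZMod p) p hp φ wK hwK K k (RingHom.id K) c w₀ hw₀ hredK hred₀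
      (J := id) rfl (fun x y h => ⟨h, rfl⟩) (map_zero jc) hjc Q
  refine ⟨fun j i => red (P j i), ?_, ?_⟩
  · intro j t
    have h5 := (onX_mbr G _ _).1 (hPX j) t
    choose u hu0 hu using fun i => hred3 (P j i)
    have h6 := (loc_valG pl ((algebraMap K (AlgebraicClosure ((hspG p hp φ).adicCompletion K))).comp
      (algebraMap (𝓞 K) K)) (c.comp φ) (fun x => hplK x)
      ((algebraMap K (AlgebraicClosure ((hspG p hp φ).adicCompletion K))).comp
      (algebraMap (𝓞 K) K)) (c.comp φ)
      (fun x => hplK x) (fun i => crd (P j i))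
      (fun i => rep (red (P j i))) u hu (G t) (d t) (hG t) y).2
    have h7 : vl ((algebraMap K (AlgebraicClosure ((hspG p hp φ).adicCompletion K))).comp
        (algebraMap (𝓞 K) K))
        (G t) (fun i => crd (P j i)) (fun i =>
        ((algebraMap K (AlgebraicClosure ((hspG p hp φ).adicCompletion K))).comp
        (algebraMap (𝓞 K) K)) (y i)) = 0 := h5
    rw [h7, mul_zero, Place.r_zero] at h6
    exact h6.symm
  · intro i
    have h1 : ∑ j, red (P j i) = red (incl (sw (a : K) (b : K))
        ((hspG p hp φ).adicCompletion K) (T i)) := by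
      rw [← hT, map_sum]
    have h2 : T i = locHom (L := (hspG p hp φ).adicCompletion K) (sw (a : K) (b : K)) (s i) + N • z i := by
      rw [← hz]
      abel
    beta_reduce
    rw [h1, h2, incl_add, incl_nsmul, map_add, map_nsmul, hkv, add_zero, hglob]

open scoped Classical in
/-- the adelic effective zero-cycles of degree `m + 1` of the member with the parameters `y` with
sum given by classes killed by `N` -/
def CyPt {K : Type} [Field K] [NumberField K] {r n q : ℕ} (a b : 𝓞 K)
    (G : Fin q → Pol (𝓞 K) r n) (m N : ℕ) (y : Fin n → K) : Prop :=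
  ∃ (ξ : Fin r → (AlgebraicClosure K ≃ₐ[K] AlgebraicClosure K) →
      AlgPt (sw (a : K) (b : K)) K)
    (T : ∀ v : HeightOneSpectrum (𝓞 K), Fin r →
      ((sw (a : K) (b : K)).baseChange (v.adicCompletion K)).toAffine.Point),
    SelSum (sw (a : K) (b : K)) N ξ T ∧ ∀ v : HeightOneSpectrum (𝓞 K),
      ∃ P : Fin (m + 1) → Fin r → AlgPt (sw (a : K) (b : K)) (v.adicCompletion K),
        (∀ j, OnX (mbr G y) (fun i => crd (P j i))) ∧
        ∀ i, ∑ j, P j i = incl (sw (a : K) (b : K)) (v.adicCompletion K) (T v i)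

open scoped Classical in
theorem hs_of_cyc (hplc : StPlc)
    {K : Type} [Field K] [NumberField K] {r n q m : ℕ} (a b : 𝓞 K) (G : Fin q → Pol (𝓞 K) r n)
    (d : Fin q → Fin r → ℕ) (kk : Fin q → ℕ) (hG : ∀ e, MHomog (G e) (d e))
    (hX : ∀ e, XHomog (G e) (kk e)) {M0 : ℕ}
    (hM : ShaKilledBy (sw (a : K) (b : K)) M0) (y : Fin n → K) (L : ℕ)
    (h : CyPt a b G m (M0 * 2 * L) y) : HS a b G m L y := by
  obtain ⟨ξ, T, hsel, hP⟩ := h
  intro u z hu hz
  obtain ⟨s, hs⟩ := descendK (a : K) (b : K) hM L ξ T hsel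
  refine ⟨s, fun p _ φ hkill => ?_⟩
  refine memberCy hplc a b G d hG L z s (fun v => ?_) p φ (fun P => hkill P)
  obtain ⟨P, hP1, hP2⟩ := hP v
  choose z' hz' using hs v
  refine ⟨P, T v, z', fun j => ?_, hP2, hz'⟩
  have h0 := (onX_mbr G _ _).1 (hP1 j)
  rw [onX_mbr]
  intro e
  have h1 : (fun i => algebraMap K (AlgebraicClosure (v.adicCompletion K)) ((z i : 𝓞 K) : K)) =
      fun i => algebraMap K (AlgebraicClosure (v.adicCompletion K)) u *
        algebraMap K (AlgebraicClosure (v.adicCompletion K)) (y i) := by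
    funext i
    rw [hz, map_mul]
  rw [h1, vl_xscale _ (G e) (kk e) (hX e), h0 e, mul_zero]

end Pool.Agent.Y213.CT
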