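import Pool.Agent.Y213.CT.Loc

/-! Descent over an extension and the Tate-Shafarevich group of the base field. -/

set_option autoImplicit false

namespace Pool.Agent.Y213.CT

open MvPolynomial NumberField Pool.Agent.H901R3.MS WeierstrassCurve IsDedekindDomain
open Pool.Agent.Y213.EC Pool.Agent.TH954 Pool.Agent.TH942 Pool.Agent.Y213.BD
open Pool.Agent.Y213.T6 (loc_valG bc_eq shortInt_sw)

open scoped Classical in
theorem descend (hemb : StEmb) (hgal : StGal) (huni : StUni)
    {K F : Type} [Field K] [NumberField K] [Field F] [NumberField F] [Algebra K F]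
    [FiniteDimensional K F] (a b : K) (hd : Disc a b) {M0 : ℕ}
    (hM : ShaKilledBy (sw a b) M0) (N : ℕ) {r : ℕ}
    (S : Set (MvPolynomial (Fin r × Fin 3) F))
    (ξ : Fin r → (AlgebraicClosure F ≃ₐ[F] AlgebraicClosure F) → AlgPt (EF a b F) F)
    (hξ : ∀ i, IsCocycle (EF a b F) (ξ i)) (hξN : ∀ i σ, (M0 * 2 * N) • ξ i σ = 0)
    (hcov : ∀ w : HeightOneSpectrum (𝓞 F),
      CoverPoint (EF a b F) S (M0 * 2 * N) ξ (w.adicCompletion F)) :
    ∃ (s : Fin r → SPt a b)
      (x : ∀ w : HeightOneSpectrum (𝓞 F), Fin r →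
        ((EF a b F).baseChange (w.adicCompletion F)).toAffine.Point),
      (∀ w, OnX S (fun i => crd (x w i))) ∧
      ∀ v : HeightOneSpectrum (𝓞 K), ∃ (w : Emb K F → HeightOneSpectrum (𝓞 F))
      (κ : ∀ ε, (w ε).adicCompletion F →+* AlgebraicClosure (v.adicCompletion K))
      (Jκ : ∀ ε, ((EF a b F).baseChange ((w ε).adicCompletion F)).toAffine.Point →+
        AlgPt (sw a b) (v.adicCompletion K))
      (T z : Fin r → ((sw a b).baseChange (v.adicCompletion K)).toAffine.Point),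
      (∀ ε, Good v (w ε) (κ ε)) ∧ (∀ ε, MapsTo (κ ε) (Jκ ε)) ∧
      (∀ i, incl (sw a b) (v.adicCompletion K) (T i) = ∑ ε, Jκ ε (x (w ε) i)) ∧
      ∀ i, T i - locHom (L := v.adicCompletion K) (sw a b) (s i) = N • z i := by
  choose ιw x Q hx hQ hloc using hcov
  set η : Fin r → (AlgebraicClosure K ≃ₐ[K] AlgebraicClosure K) → AlgPt (sw a b) K :=
    fun i => CC a b hd (ξ i) with hη
  have hηc : ∀ i, IsCocycle (sw a b) (η i) := fun i => cc_cocycle a b hd (ξ i) (hξ i)
  have hηN : ∀ i σ, (M0 * 2 * N) • η i σ = 0 := fun i σ =>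
    cor_smul op hh (JJ a b hd) (ξ i) (M0 * 2 * N) (hξN i) σ
  have hlocv : ∀ v : HeightOneSpectrum (𝓞 K), ∃ (ι : AlgebraicClosure K →ₐ[K]
      AlgebraicClosure (v.adicCompletion K)) (w : Emb K F → HeightOneSpectrum (𝓞 F))
      (κ : ∀ ε, (w ε).adicCompletion F →+* AlgebraicClosure (v.adicCompletion K))
      (Jκ : ∀ ε, ((EF a b F).baseChange ((w ε).adicCompletion F)).toAffine.Point →+
        AlgPt (sw a b) (v.adicCompletion K)) (R : Fin r → AlgPt (sw a b) (v.adicCompletion K)),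
      (∀ ε, Good v (w ε) (κ ε)) ∧ (∀ ε, MapsTo (κ ε) (Jκ ε)) ∧
      ∀ i, (∀ σ g, Compat ι σ g → pm (sw a b) ι (η i g) = act (sw a b) σ (R i) - R i) ∧
          (M0 * 2 * N) • R i = ∑ ε, Jκ ε (x (w ε) i) := by
    intro v
    obtain ⟨w, κ, Jκ, h1, h2, h3⟩ := loc_cor hemb hgal huni a b hd v
      (IsAlgClosed.lift (R := K) (S := AlgebraicClosure K)
        (M := AlgebraicClosure (v.adicCompletion K))) ιw
    have h4 := fun i => h3 (ξ i) (hξ i).1 (fun w => Q w i) (fun w σ τ h => hloc w i σ τ h)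
      (M0 * 2 * N) (hξN i) (fun w => x w i) (fun w => hQ w i)
    choose R hR using h4
    exact ⟨_, w, κ, Jκ, R, h1, h2, hR⟩
  choose ι w κ Jκ R hgood hmaps hR using hlocv
  have hRex : ∀ i, ∃ R : AlgPt (sw a b) K, ∀ σ, (M0 * 2) • η i σ = act (sw a b) σ R - R := by
    intro i
    have hco2 : IsCocycle (sw a b) (fun σ => 2 • η i σ) := by
      refine ⟨fun σ τ => ?_, ?_⟩
      · change 2 • η i (σ * τ) = 2 • η i σ + act (sw a b) σ (2 • η i τ)
        rw [(hηc i).1 σ τ, ns_add, act_nsmul]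
      · obtain ⟨F', hF, h⟩ := (hηc i).2
        exact ⟨F', hF, fun σ τ hστ => by
          change 2 • η i σ = 2 • η i τ
          rw [h σ τ hστ]⟩
    obtain ⟨R', hR'⟩ := hM (fun σ => 2 • η i σ) hco2 (fun v => by
      refine ⟨ι v, 2 • R v i, fun σ τ hστ => ?_⟩
      change pm (sw a b) _ (2 • η i τ) = _
      rw [map_nsmul, (hR v i).1 σ τ hστ, act_nsmul, ns_sub]) (fun w =>
      trivial_two (hηc i).1 w.Completion (twoGal_inf w))
    refine ⟨R', fun σ => ?_⟩
    rw [← hR' σ, ns_mul]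
  choose RR hRR using hRex
  have hyex : ∀ i, ∃ y : SPt a b, incl (sw a b) K y = N • RR i := by
    intro i
    refine exists_of_fixed (L := K) (N • RR i) (fun σ => ?_)
    have e1 : act (sw a b) σ (RR i) = RR i + (M0 * 2) • η i σ := by
      rw [hRR i σ]
      abel
    rw [act_nsmul, e1, ns_add, ← ns_mul, mul_comm N (M0 * 2), hηN, add_zero]
  choose y hy using hyex
  refine ⟨y, x, hx, ?_⟩
  intro v
  have hch : CharZero (v.adicCompletion K) :=
    charZero_of_injective_algebraMap (algebraMap K (v.adicCompletion K)).injective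
  have hT : ∀ i, ∃ T, incl (sw a b) (v.adicCompletion K) T = (M0 * 2 * N) • R v i := by
    intro i
    refine exists_of_fixed _ (fun σ => ?_)
    obtain ⟨τ, hτ⟩ := exists_compat (ι v) σ
    have h1 := (hR v i).1 σ τ hτ
    have e1 : act (sw a b) σ (R v i) = R v i + pm (sw a b) (ι v) (η i τ) := by
      rw [h1]
      abel
    rw [act_nsmul, e1, ns_add, ← map_nsmul, hηN, map_zero, add_zero]
  choose T hT using hT
  have hz : ∀ i, ∃ z, T i - locHom (L := v.adicCompletion K) (sw a b) (y i) = N • z := fun i =>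
    local_step (M := M0 * 2) (N := N) (Q := R v i) (ι := ι v) (R := RR i) (hT i).symm
      (fun σ τ h => (hR v i).1 σ τ h) (hRR i) (hy i)
  choose z hz using hz
  exact ⟨w v, κ v, Jκ v, T, z, hgood v, hmaps v, fun i => (hT i).trans (hR v i).2, hz⟩

end Pool.Agent.Y213.CT
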