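import Pool.Agent.Y213.CT.Core3

/-! Families of closed subvarieties of `E ^ r`: traces of local points at one level, with heights. -/

set_option autoImplicit false

namespace Pool.Agent.Y213.CT

open MvPolynomial NumberField Pool.Agent.H901R3.MS WeierstrassCurve IsDedekindDomain
open Pool.Agent.Y213.EC Pool.Agent.TH954 Pool.Agent.TH942 Pool.Agent.Y213.BD
open Pool.Agent.Y213.CB Pool.Agent.W620.SC

open scoped LinearAlgebra.Projectivization

theorem partBS (K : Type) [Field K] [NumberField K] (r n q : ℕ) (I : Finset ℕ) (a b : 𝓞 K)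
    (hd : 4 * a ^ 3 + 27 * b ^ 2 ≠ 0) (G : Fin q → Pol (𝓞 K) r n)
    (d : Fin q → Fin r → ℕ) (kk : Fin q → ℕ) (hG : ∀ e, MHomog (G e) (d e))
    (hX : ∀ e, XHomog (G e) (kk e)) (D : ℕ) (σ : K →+* ℂ)
    (hns : ∀ m ∈ I, ∀ S : Fin r → Pt (toC σ a) (toC σ b),
      {y : ℙ ℂ (Fin n → ℂ) | y.rep ∈ YS a b G m (toC σ) S}.encard ≤ D)
    (ε : ℝ) (hε : 0 < ε) :
    ∃ C : ℝ, ∀ B : ℝ, 1 ≤ B → ∃ L : ℕ, 1 ≤ L ∧ (L : ℝ) ≤ C * B ^ ε ∧
      {y : ℙ K (Fin n → K) | (∃ m ∈ I, HS a b G m L y.rep) ∧ y.mulHeight ≤ B}.Finite ∧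
      ({y : ℙ K (Fin n → K) | (∃ m ∈ I, HS a b G m L y.rep) ∧ y.mulHeight ≤ B}.ncard : ℝ) ≤
        C * B ^ ε := by
  classical
  have hdK := disc_ne hd
  obtain ⟨N, ω, C, hC0, hC⟩ := reduce K n
  set ε' : ℝ := ε / ((n : ℝ) + 1) with hε'
  have hε'0 : 0 < ε' := by positivity
  set ε₁ : ℝ := ε' / ((I.card : ℝ) + 1) with hε₁
  have hε₁0 : 0 < ε₁ := by positivity
  have hcore : ∀ m : I, _ := fun m => coreF1 K N ω r n q m.1 a b hdK G d hG D σ (by
    intro S x hx0 hx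
    by_contra hcon
    push Not at hcon
    have hinj : Function.Injective fun l => Projectivization.mk ℂ (x l) (hx0 l) := by
      intro l l' hll
      by_contra hne
      obtain ⟨u, hu⟩ := (Projectivization.mk_eq_mk_iff' ℂ _ _ _ _).1 hll
      exact hcon l l' hne u hu.symm
    have h1 : (Set.range fun l => Projectivization.mk ℂ (x l) (hx0 l)) ⊆
        {y : ℙ ℂ (Fin n → ℂ) | y.rep ∈ YS a b G m.1 (toC σ) S} := by
      rintro _ ⟨l, rfl⟩
      obtain ⟨u, hu⟩ := Projectivization.exists_smul_eq_mk_rep ℂ (x l) (hx0 l)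
      have h1 : (Projectivization.mk ℂ (x l) (hx0 l)).rep = (u : ℂ) • x l := hu.symm
      rw [Set.mem_setOf_eq, h1]
      exact ys_smul a b G kk hX (toC σ) S (x l) u (hx l)
    have h2 := (Set.encard_le_encard h1).trans (hns m.1 m.2 S)
    rw [← Set.image_univ, hinj.encard_image, Set.encard_univ, ENat.card_eq_coe_fintype_card,
      Fintype.card_fin] at h2
    have h3 : D + 1 ≤ D := by exact_mod_cast h2
    omega) ε₁ hε₁0
  choose H₀ hH₀ hmain using hcore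
  set H₁ : ℕ := Finset.univ.sup H₀ + 1 with hH₁
  refine ⟨(I.card * D + 1) * (C + 1 + H₁) ^ ε', fun B hB => ?_⟩
  set H : ℕ := ⌈C * B ^ (n + 1)⌉₊ + H₁ with hH
  have hB' : (1 : ℝ) ≤ B ^ (n + 1) := one_le_pow₀ hB
  have hHle : (H : ℝ) ≤ (C + 1 + H₁) * B ^ (n + 1) := by
    have h1 := (Nat.ceil_lt_add_one (by positivity : 0 ≤ C * B ^ (n + 1))).le
    have h2 : (0 : ℝ) ≤ H₁ := Nat.cast_nonneg _
    rw [hH]
    push_cast
    nlinarith
  have hHge : C * B ^ (n + 1) ≤ H := by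
    rw [hH]
    push_cast
    have h1 := Nat.le_ceil (C * B ^ (n + 1))
    have h2 : (0 : ℝ) ≤ H₁ := Nat.cast_nonneg _
    linarith
  have hex : ∀ m : I, _ := fun m => hmain m H
    ((Finset.le_sup (f := H₀) (Finset.mem_univ m)).trans (by omega))
  choose L Z hL1 hLH hZ1 hZ2 using hex
  have hH1 : (1 : ℝ) ≤ H := by
    have : 1 ≤ H := by omega
    exact_mod_cast this
  have hHr : (H : ℝ) ^ ε' ≤ (C + 1 + H₁) ^ ε' * B ^ ε := rpow_bound n C B ε hC0 hB hε H₁ H hHle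
  have hεε : ε₁ ≤ ε' := by
    rw [hε₁]
    refine div_le_self hε'0.le ?_
    have : (0 : ℝ) ≤ I.card := Nat.cast_nonneg _
    linarith
  have hHe : (H : ℝ) ^ ε₁ ≤ (H : ℝ) ^ ε' := Real.rpow_le_rpow_of_exponent_le hH1 hεε
  have hX0 : 0 ≤ (C + 1 + H₁) ^ ε' * B ^ ε := le_trans (by positivity) hHr
  have hLt : ((∏ m, L m : ℕ) : ℝ) ≤ (H : ℝ) ^ ε' := by
    push_cast
    calc ∏ m, (L m : ℝ) ≤ ∏ _m : I, (H : ℝ) ^ ε₁ :=
          Finset.prod_le_prod (fun m _ => Nat.cast_nonneg _) (fun m _ => hLH m)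
      _ = (H : ℝ) ^ (ε₁ * I.card) := by
          rw [Finset.prod_const, Finset.card_univ, Fintype.card_coe, ← Real.rpow_natCast,
            ← Real.rpow_mul (Nat.cast_nonneg _)]
      _ ≤ (H : ℝ) ^ ε' := by
          refine Real.rpow_le_rpow_of_exponent_le hH1 ?_
          rw [hε₁, div_mul_eq_mul_div, div_le_iff₀ (by positivity)]
          nlinarith
  have hdvd : ∀ m : I, L m ∣ ∏ m, L m := fun m => Finset.dvd_prod_of_mem _ (Finset.mem_univ m)
  have hsub : {y : ℙ K (Fin n → K) | (∃ m ∈ I, HS a b G m (∏ m, L m) y.rep) ∧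
      y.mulHeight ≤ B} ⊆
      ((Finset.univ.biUnion Z : Finset (ℙ K (Fin n → K))) : Set (ℙ K (Fin n → K))) := by
    rintro y ⟨⟨m, hm, hy⟩, hyB⟩
    obtain ⟨c, u, hu, hcu, hcB⟩ := hC B y hyB
    have h1 : (fun i => ((W659.SA.vec ω c i : 𝓞 K) : K)) = u • y.rep := by
      funext i
      rw [hcu i]
      rfl
    have h2 : (fun i => ((W659.SA.vec ω c i : 𝓞 K) : K)) ≠ 0 := by
      rw [h1]
      exact smul_ne_zero hu y.rep_nonzero
    obtain ⟨s, hs⟩ := hy u (W659.SA.vec ω c) hu hcu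
    have h3 := hZ2 ⟨m, hm⟩ c h2 (by
      intro i
      have h1 : |(c i : ℝ)| ≤ H := (hcB i).trans hHge
      exact_mod_cast h1) ⟨s, rdnL_mono a b G m _ _ (hdvd ⟨m, hm⟩) _ s hs⟩
    have h4 : Projectivization.mk K _ h2 = y := by
      conv_rhs => rw [← y.mk_rep]
      rw [Projectivization.mk_eq_mk_iff']
      exact ⟨u, h1.symm⟩
    rw [h4] at h3
    exact Finset.mem_coe.2 (Finset.mem_biUnion.2 ⟨_, Finset.mem_univ _, h3⟩)
  refine ⟨∏ m, L m, Nat.succ_le_of_lt (Finset.prod_pos fun m _ => hL1 m), ?_,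
    (Finset.finite_toSet _).subset hsub, ?_⟩
  · have h1 := hLt.trans hHr
    have h2 : 0 ≤ (I.card : ℝ) * D := by positivity
    nlinarith [mul_nonneg h2 hX0]
  have h1 : ({y : ℙ K (Fin n → K) | (∃ m ∈ I, HS a b G m (∏ m, L m) y.rep) ∧
      y.mulHeight ≤ B}.ncard : ℝ) ≤ (Finset.univ.biUnion Z).card := by
    have := Set.ncard_le_ncard hsub (Finset.finite_toSet _)
    rw [Set.ncard_coe_finset] at this
    exact_mod_cast this
  refine h1.trans ?_
  have h1 : (((Finset.univ.biUnion Z).card : ℕ) : ℝ) ≤ ∑ m, ((Z m).card : ℝ) := by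
    exact_mod_cast Finset.card_biUnion_le
  refine h1.trans ((Finset.sum_le_sum fun m _ => hZ1 m).trans ?_)
  rw [Finset.sum_const, Finset.card_univ, Fintype.card_coe, nsmul_eq_mul]
  have h3 : (D : ℝ) * (H : ℝ) ^ ε₁ ≤ D * ((C + 1 + H₁) ^ ε' * B ^ ε) :=
    mul_le_mul_of_nonneg_left (hHe.trans hHr) (Nat.cast_nonneg _)
  have h4 : (I.card : ℝ) * (D * (H : ℝ) ^ ε₁) ≤ I.card * (D * ((C + 1 + H₁) ^ ε' * B ^ ε)) :=
    mul_le_mul_of_nonneg_left h3 (Nat.cast_nonneg _)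
  refine h4.trans ?_
  nlinarith

end Pool.Agent.Y213.CT
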