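import Pool.Agent.Y213.CT.Maps

/-! Embeddings of an extension in the algebraic closure. -/

set_option autoImplicit false

namespace Pool.Agent.Y213.CT

open NumberField

section fld

variable (K F : Type) [Field K] [Field F] [Algebra K F] [FiniteDimensional K F]

/-- the embeddings -/
abbrev Emb : Type := F →ₐ[K] AlgebraicClosure K

variable {K F}

/-- the action on the embeddings -/
noncomputable def op (g : AlgebraicClosure K ≃ₐ[K] AlgebraicClosure K) (ε : Emb K F) : Emb K F :=
  (g : AlgebraicClosure K →ₐ[K] AlgebraicClosure K).comp ε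

omit [FiniteDimensional K F] in
theorem op_apply (g : AlgebraicClosure K ≃ₐ[K] AlgebraicClosure K) (ε : Emb K F) (x : F) :
    op g ε x = g (ε x) := rfl

omit [FiniteDimensional K F] in
theorem op_mul (g g' : AlgebraicClosure K ≃ₐ[K] AlgebraicClosure K) (ε : Emb K F) :
    op (g * g') ε = op g (op g' ε) := rfl

omit [FiniteDimensional K F] in
theorem op_bij (g : AlgebraicClosure K ≃ₐ[K] AlgebraicClosure K) :
    Function.Bijective (op (F := F) g) := by
  constructor
  · intro ε ε' h
    apply AlgHom.ext
    intro x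
    exact g.injective (DFunLike.congr_fun h x)
  · intro ε
    refine ⟨op g⁻¹ ε, ?_⟩
    rw [← op_mul, mul_inv_cancel]
    rfl

theorem exists_T (ε : Emb K F) : ∃ T : AlgebraicClosure F ≃+* AlgebraicClosure K,
    ∀ x : F, T (algebraMap F (AlgebraicClosure F) x) = ε x := by
  letI : Algebra F (AlgebraicClosure K) := (ε : F →+* AlgebraicClosure K).toAlgebra
  haveI : IsScalarTower K F (AlgebraicClosure K) :=
    IsScalarTower.of_algebraMap_eq (fun x => (ε.commutes x).symm)
  haveI : Algebra.IsAlgebraic F (AlgebraicClosure K) :=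
    Algebra.IsAlgebraic.tower_top (K := K) F
  haveI : IsAlgClosure F (AlgebraicClosure K) := ⟨inferInstance, inferInstance⟩
  exact ⟨(IsAlgClosure.equiv F (AlgebraicClosure F) (AlgebraicClosure K)).toRingEquiv,
    fun x => (IsAlgClosure.equiv F (AlgebraicClosure F) (AlgebraicClosure K)).commutes x⟩

/-- the chosen extensions of the embeddings -/
noncomputable def TT (ε : Emb K F) : AlgebraicClosure F ≃+* AlgebraicClosure K :=
  (exists_T ε).choose

theorem TT_apply (ε : Emb K F) (x : F) : TT ε (algebraMap F (AlgebraicClosure F) x) = ε x :=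
  (exists_T ε).choose_spec x

/-- the elements of the Galois group of `F` -/
noncomputable def hh (g : AlgebraicClosure K ≃ₐ[K] AlgebraicClosure K) (ε : Emb K F) :
    AlgebraicClosure F ≃ₐ[F] AlgebraicClosure F :=
  AlgEquiv.ofRingEquiv (f := ((TT ε).trans (g : AlgebraicClosure K ≃+* AlgebraicClosure K)).trans
    (TT (op g ε)).symm) (by
      intro x
      change (TT (op g ε)).symm (g (TT ε (algebraMap F (AlgebraicClosure F) x))) = _
      rw [TT_apply, ← op_apply, ← TT_apply (op g ε), RingEquiv.symm_apply_apply])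

theorem TT_hh (g : AlgebraicClosure K ≃ₐ[K] AlgebraicClosure K) (ε : Emb K F)
    (z : AlgebraicClosure F) : TT (op g ε) (hh g ε z) = g (TT ε z) := by
  change TT (op g ε) ((TT (op g ε)).symm (g (TT ε z))) = _
  rw [RingEquiv.apply_symm_apply]

theorem hh_mul (g g' : AlgebraicClosure K ≃ₐ[K] AlgebraicClosure K) (ε : Emb K F) :
    hh (g * g') ε = hh g (op g' ε) * hh g' ε := by
  apply AlgEquiv.ext
  intro z
  apply (TT (op (g * g') ε)).injective
  rw [TT_hh]
  change g (g' (TT ε z)) = TT (op g (op g' ε)) (hh g (op g' ε) (hh g' ε z))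
  rw [TT_hh, TT_hh]

end fld

end Pool.Agent.Y213.CT
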