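import Pool.Agent.Y213.CT.Cor

/-! The corestriction over the completions. -/

set_option autoImplicit false

namespace Pool.Agent.Y213.CT

open MvPolynomial NumberField Pool.Agent.H901R3.MS WeierstrassCurve IsDedekindDomain
open Pool.Agent.Y213.EC Pool.Agent.TH954 Pool.Agent.TH942 Pool.Agent.Y213.BD
open Pool.Agent.Y213.T6 (loc_valG bc_eq shortInt_sw)

/-- extension of an embedding to the algebraic closure -/
theorem exists_psi {L C : Type} [Field L] [Field C] [IsAlgClosed C] (κ : L →+* C) :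
    ∃ ψ : AlgebraicClosure L →+* C, ∀ x, ψ (algebraMap L (AlgebraicClosure L) x) = κ x := by
  letI : Algebra L C := κ.toAlgebra
  let r : AlgebraicClosure L →ₐ[L] C :=
    IsAlgClosed.lift (R := L) (S := AlgebraicClosure L) (M := C)
  exact ⟨(r : AlgebraicClosure L →+* C), fun x => r.commutes x⟩

section one

variable {K F : Type} [Field K] [NumberField K] [Field F] [NumberField F] [Algebra K F]
  [FiniteDimensional K F]

open scoped Classical in
theorem key (a b : K) (hd : Disc a b) {Kv : Type} [Field Kv] [Algebra K Kv]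
    (ι : AlgebraicClosure K →ₐ[K] AlgebraicClosure Kv)
    (ιw : ∀ w : HeightOneSpectrum (𝓞 F),
      AlgebraicClosure F →ₐ[F] AlgebraicClosure (w.adicCompletion F))
    (ξ : (AlgebraicClosure F ≃ₐ[F] AlgebraicClosure F) → AlgPt (EF a b F) F)
    (Q : ∀ w : HeightOneSpectrum (𝓞 F), AlgPt (EF a b F) (w.adicCompletion F))
    (hloc : ∀ w σ τ, Compat (ιw w) σ τ → pm (EF a b F) (ιw w) (ξ τ) =
      act (EF a b F) σ (Q w) - Q w)
    (σ : AlgebraicClosure Kv ≃ₐ[Kv] AlgebraicClosure Kv)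
    (g : AlgebraicClosure K ≃ₐ[K] AlgebraicClosure K) (hσg : Compat ι σ g) (ε : Emb K F)
    (u u' : AlgebraicClosure F ≃ₐ[F] AlgebraicClosure F)
    (w w' : HeightOneSpectrum (𝓞 F)) (hw : w = w')
    (κ : w.adicCompletion F →+* AlgebraicClosure Kv)
    (κ' : w'.adicCompletion F →+* AlgebraicClosure Kv)
    (hκ : HEq ((σ : AlgebraicClosure Kv →+* AlgebraicClosure Kv).comp κ) κ')
    (ψ : AlgebraicClosure (w.adicCompletion F) →+* AlgebraicClosure Kv)
    (hψ : ∀ x, ψ (algebraMap _ _ x) = κ x)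
    (ψ' : AlgebraicClosure (w'.adicCompletion F) →+* AlgebraicClosure Kv)
    (hψ' : ∀ x, ψ' (algebraMap _ _ x) = κ' x)
    (hu : ∀ z, ψ (ιw w z) = ι (TT ε (u z)))
    (hu' : ∀ z, ψ' (ιw w' z) = ι (TT (op g ε) (u' z)))
    (J : AlgPt (EF a b F) (w.adicCompletion F) →+ AlgPt (sw a b) Kv) (hJ : MapsTo ψ J)
    (J' : AlgPt (EF a b F) (w'.adicCompletion F) →+ AlgPt (sw a b) Kv) (hJ' : MapsTo ψ' J') :
    pm (sw a b) ι (JJ a b hd (op g ε) (act (EF a b F) u' (ξ (u'⁻¹ * hh g ε * u)))) =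
      act (sw a b) σ (J (Q w)) - J' (Q w') := by
  subst hw
  have hκ' : κ' = (σ : AlgebraicClosure Kv →+* AlgebraicClosure Kv).comp κ := (eq_of_heq hκ).symm
  subst hκ'
  obtain ⟨σ', hσ'⟩ := gal_of_two
    ((σ : AlgebraicClosure Kv →+* AlgebraicClosure Kv).comp ψ) ψ' (fun x => by
      rw [hψ']
      change σ (ψ _) = σ (κ x)
      rw [hψ])
  have hσ'' : ∀ z, σ (ψ z) = ψ' (σ' z) := hσ'
  have hc : Compat (ιw w) σ' (u'⁻¹ * hh g ε * u) := by
    intro z
    apply ψ'.injective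
    rw [hu', ← hσ'', hu]
    have h1 : u' ((u'⁻¹ * hh g ε * u) z) = hh g ε (u z) := by
      change u' (u'⁻¹ (hh g ε (u z))) = _
      rw [← AlgEquiv.mul_apply, mul_inv_cancel, AlgEquiv.one_apply]
    rw [h1, TT_hh]
    exact hσg _
  have h1 := hloc w σ' _ hc
  have h2 : J' (pm (EF a b F) (ιw w) (ξ (u'⁻¹ * hh g ε * u))) =
      pm (sw a b) ι (JJ a b hd (op g ε) (act (EF a b F) u' (ξ (u'⁻¹ * hh g ε * u)))) := by
    apply crd_inj
    intro j
    rw [hJ', mapsTo_pm (ιw w), mapsTo_pm ι, JJ_spec, act_mapsTo]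
    exact hu' _
  have h3 : J' (act (EF a b F) σ' (Q w)) = act (sw a b) σ (J (Q w)) :=
    mapsTo_sq (act_mapsTo _ σ') hJ' hJ (act_mapsTo _ σ) (fun z => (hσ'' z).symm) (Q w)
  rw [← h2, h1, map_sub, h3]

open scoped Classical in
theorem loc_cor (hemb : StEmb) (hgal : StGal) (huni : StUni) (a b : K) (hd : Disc a b)
    (v : HeightOneSpectrum (𝓞 K))
    (ι : AlgebraicClosure K →ₐ[K] AlgebraicClosure (v.adicCompletion K))
    (ιw : ∀ w : HeightOneSpectrum (𝓞 F),
      AlgebraicClosure F →ₐ[F] AlgebraicClosure (w.adicCompletion F)) :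
    ∃ (w : Emb K F → HeightOneSpectrum (𝓞 F))
      (κ : ∀ ε, (w ε).adicCompletion F →+* AlgebraicClosure (v.adicCompletion K))
      (Jκ : ∀ ε, ((EF a b F).baseChange ((w ε).adicCompletion F)).toAffine.Point →+
        AlgPt (sw a b) (v.adicCompletion K)),
      (∀ ε, Good v (w ε) (κ ε)) ∧ (∀ ε, MapsTo (κ ε) (Jκ ε)) ∧
      ∀ (ξ : (AlgebraicClosure F ≃ₐ[F] AlgebraicClosure F) → AlgPt (EF a b F) F)
        (_ : ∀ σ τ, ξ (σ * τ) = ξ σ + act (EF a b F) σ (ξ τ))
        (Q : ∀ w : HeightOneSpectrum (𝓞 F), AlgPt (EF a b F) (w.adicCompletion F))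
        (_ : ∀ w σ τ, Compat (ιw w) σ τ → pm (EF a b F) (ιw w) (ξ τ) =
          act (EF a b F) σ (Q w) - Q w)
        (N : ℕ) (_ : ∀ σ, N • ξ σ = 0)
        (x : ∀ w : HeightOneSpectrum (𝓞 F),
          ((EF a b F).baseChange (w.adicCompletion F)).toAffine.Point)
        (_ : ∀ w, N • Q w = incl (EF a b F) (w.adicCompletion F) (x w)),
        ∃ R : AlgPt (sw a b) (v.adicCompletion K),
          (∀ σ g, Compat ι σ g → pm (sw a b) ι (CC a b hd ξ g) = act (sw a b) σ R - R) ∧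
          N • R = ∑ ε, Jκ ε (x (w ε)) := by
  have h1 : ∀ ε : Emb K F, ∃ (w : HeightOneSpectrum (𝓞 F))
      (κ : w.adicCompletion F →+* AlgebraicClosure (v.adicCompletion K)),
      Good v w κ ∧ ∀ x : F, κ (algebraMap F (w.adicCompletion F) x) = ι (ε x) := by
    intro ε
    obtain ⟨w, κ, hκ, h⟩ := hemb K F v ((ι : AlgebraicClosure K →+* _).comp
      (ε : F →+* AlgebraicClosure K)) (fun x => by
        change ι (ε (algebraMap K F x)) = _
        rw [ε.commutes, ι.commutes]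
        rfl)
    exact ⟨w, κ, hκ, h⟩
  choose w κ hκ hκF using h1
  choose ψ hψ using fun ε => exists_psi (κ ε)
  have hκa : ∀ ε, ∀ x : K, κ ε (algebraMap F ((w ε).adicCompletion F) (algebraMap K F x)) =
      algebraMap K (AlgebraicClosure (v.adicCompletion K)) x := fun ε x => by
    rw [hκF, ε.commutes, ι.commutes]
  have hψa : ∀ ε, ∀ x : K, ψ ε (algebraMap F (AlgebraicClosure ((w ε).adicCompletion F))
      (algebraMap K F x)) = algebraMap K (AlgebraicClosure (v.adicCompletion K)) x := fun ε x => by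
    rw [IsScalarTower.algebraMap_apply F ((w ε).adicCompletion F)
      (AlgebraicClosure ((w ε).adicCompletion F)), hψ, hκa]
  have h2 : ∀ ε, ∃ J : ((EF a b F).baseChange ((w ε).adicCompletion F)).toAffine.Point →+
      AlgPt (sw a b) (v.adicCompletion K), MapsTo (κ ε) J := fun ε =>
    exists_mapsTo _ _ (bc_eq _ _ _) (bc_eq _ _ _) _ (hκa ε a) (hκa ε b)
      (disc_mp (algebraMap K _) hd)
  have h3 : ∀ ε, ∃ J : AlgPt (EF a b F) ((w ε).adicCompletion F) →+
      AlgPt (sw a b) (v.adicCompletion K), MapsTo (ψ ε) J := fun ε =>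
    exists_mapsTo _ _ (bc_eq _ _ _) (bc_eq _ _ _) _ (hψa ε a) (hψa ε b)
      (disc_mp (algebraMap K _) hd)
  choose Jκ hJκ using h2
  choose Jψ hJψ using h3
  have h4 : ∀ ε, ∃ u : AlgebraicClosure F ≃ₐ[F] AlgebraicClosure F, ∀ z,
      ψ ε (ιw (w ε) z) = ι (TT ε (u z)) := fun ε =>
    gal_of_two ((ψ ε).comp (ιw (w ε) : AlgebraicClosure F →+* _))
      ((ι : AlgebraicClosure K →+* _).comp (TT ε : AlgebraicClosure F →+* AlgebraicClosure K))
      (fun x => by
        change ψ ε (ιw (w ε) (algebraMap F (AlgebraicClosure F) x)) =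
          ι (TT ε (algebraMap F (AlgebraicClosure F) x))
        rw [TT_apply, ← hκF, (ιw (w ε)).commutes,
          IsScalarTower.algebraMap_apply F ((w ε).adicCompletion F)
          (AlgebraicClosure ((w ε).adicCompletion F)), hψ])
  choose u hu using h4
  refine ⟨w, κ, Jκ, hκ, hJκ, ?_⟩
  intro ξ hξ Q hloc N hN x hx
  refine ⟨∑ ε, (Jψ ε (Q (w ε)) - pm (sw a b) ι (JJ a b hd ε (ξ (u ε)))), ?_, ?_⟩
  · intro σ g hσg
    refine cor_local op op_bij hh (JJ a b hd) ξ (pm (sw a b) ι) (actH (sw a b) σ) g _ ?_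
    intro ε
    have hw := huni K F v (w ε) (w (op g ε))
      ((σ : AlgebraicClosure (v.adicCompletion K) →+* AlgebraicClosure (v.adicCompletion K)).comp
        (κ ε)) (κ (op g ε)) (hgal K F v (w ε) (κ ε) σ (hκ ε)) (hκ (op g ε)) (fun x => by
          change σ (κ ε _) = κ (op g ε) _
          rw [hκF, hκF, op_apply]
          exact (hσg _).symm)
    refine loc_abs (actH (EF a b F)) ξ hξ (JJ a b hd ε) (JJ a b hd (op g ε)) (hh g ε)
      (actH (sw a b) g) (fun x => JJ_hh a b hd g ε x) (pm (sw a b) ι) (actH (sw a b) σ)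
      (fun P => (act_pm ι hσg P).symm) (u ε) (u (op g ε)) (Jψ ε (Q (w ε)))
      (Jψ (op g ε) (Q (w (op g ε)))) ?_ ?_
    · intro P
      refine mapsTo_sq (act_mapsTo _ _) (act_mapsTo _ _) (act_mapsTo _ _) (act_mapsTo _ _) ?_ P
      intro z
      change (u (op g ε)) (((u (op g ε))⁻¹ * hh g ε * u ε) z) = hh g ε (u ε z)
      change (u (op g ε)) ((u (op g ε))⁻¹ (hh g ε (u ε z))) = _
      rw [← AlgEquiv.mul_apply, mul_inv_cancel, AlgEquiv.one_apply]
    · exact key a b hd ι ιw ξ Q hloc σ g hσg ε (u ε) (u (op g ε)) (w ε) (w (op g ε)) hw.1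
        (κ ε) (κ (op g ε)) hw.2 (ψ ε) (hψ ε) (ψ (op g ε)) (hψ (op g ε)) (hu ε) (hu (op g ε))
        (Jψ ε) (hJψ ε) (Jψ (op g ε)) (hJψ (op g ε))
  · rw [Finset.smul_sum]
    refine Finset.sum_congr rfl fun ε _ => ?_
    rw [smul_sub, ← map_nsmul (Jψ ε), hx, ← map_nsmul (pm (sw a b) ι), ← map_nsmul (JJ a b hd ε),
      hN, map_zero, map_zero, sub_zero]
    exact mapsTo_uniq (f := algebraMap ((w ε).adicCompletion F)
      (AlgebraicClosure ((w ε).adicCompletion F))) (g := ψ ε) (e := κ ε)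
      (fun P j => crd_pm _ P j) (hJψ ε) (hJκ ε) (fun z => (hψ ε z).symm) (x (w ε))

end one

end Pool.Agent.Y213.CT
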