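import Pool.Agent.Y213.CB.PlcG
import Mathlib.Analysis.Normed.Unbundled.SpectralNorm

/-! Statements for project CT (traces of local points of bounded degree). -/

set_option autoImplicit false

namespace Pool.Agent.Y213.CT

open NumberField IsDedekindDomain Pool.Agent.H901R3.MS Pool.Agent.Y213.CB

/-- `κ` is a bounded embedding of the completion `F_w` in the algebraic closure of `K_v` which is the
canonical one on `K` -/
def Good {K F : Type} [Field K] [NumberField K] [Field F] [NumberField F] [Algebra K F]
    (v : HeightOneSpectrum (𝓞 K)) (w : HeightOneSpectrum (𝓞 F))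
    (κ : w.adicCompletion F →+* AlgebraicClosure (v.adicCompletion K)) : Prop :=
  (∀ x : K, κ (algebraMap F (w.adicCompletion F) (algebraMap K F x)) =
    algebraMap (v.adicCompletion K) (AlgebraicClosure (v.adicCompletion K))
      (algebraMap K (v.adicCompletion K) x)) ∧
  ∀ x : w.adicCompletion F, ‖x‖ ≤ 1 →
    spectralNorm (v.adicCompletion K) (AlgebraicClosure (v.adicCompletion K)) (κ x) ≤ 1

/-- every embedding of `F` in the algebraic closure of `K_v` extends to the completion at a place -/
def StEmb : Prop :=
  ∀ (K F : Type) [Field K] [NumberField K] [Field F] [NumberField F] [Algebra K F]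
    (v : HeightOneSpectrum (𝓞 K)) (l : F →+* AlgebraicClosure (v.adicCompletion K))
    (_ : ∀ x : K, l (algebraMap K F x) =
      algebraMap (v.adicCompletion K) (AlgebraicClosure (v.adicCompletion K))
        (algebraMap K (v.adicCompletion K) x)),
    ∃ (w : HeightOneSpectrum (𝓞 F))
      (κ : w.adicCompletion F →+* AlgebraicClosure (v.adicCompletion K)),
      Good v w κ ∧ ∀ x : F, κ (algebraMap F (w.adicCompletion F) x) = l x

/-- conjugation -/
def StGal : Prop :=
  ∀ (K F : Type) [Field K] [NumberField K] [Field F] [NumberField F] [Algebra K F]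
    (v : HeightOneSpectrum (𝓞 K)) (w : HeightOneSpectrum (𝓞 F))
    (κ : w.adicCompletion F →+* AlgebraicClosure (v.adicCompletion K))
    (σ : AlgebraicClosure (v.adicCompletion K) ≃ₐ[v.adicCompletion K]
      AlgebraicClosure (v.adicCompletion K)),
    Good v w κ → Good v w ((σ : AlgebraicClosure (v.adicCompletion K) →+*
      AlgebraicClosure (v.adicCompletion K)).comp κ)

/-- the place and the embedding are determined by the embedding of `F` -/
def StUni : Prop :=
  ∀ (K F : Type) [Field K] [NumberField K] [Field F] [NumberField F] [Algebra K F]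
    (v : HeightOneSpectrum (𝓞 K)) (w w' : HeightOneSpectrum (𝓞 F))
    (κ : w.adicCompletion F →+* AlgebraicClosure (v.adicCompletion K))
    (κ' : w'.adicCompletion F →+* AlgebraicClosure (v.adicCompletion K)),
    Good v w κ → Good v w' κ' →
    (∀ x : F, κ (algebraMap F (w.adicCompletion F) x) =
      κ' (algebraMap F (w'.adicCompletion F) x)) → w = w' ∧ HEq κ κ'

/-- places of the algebraic closure of `K_v`, for `v` of degree one -/
def StPlc : Prop :=
  ∀ (K : Type) [Field K] [NumberField K] (p : ℕ) [Fact p.Prime] (hp : p ≠ 0)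
    (φ : 𝓞 K →+* ZMod p) (k : Type) [Field k] [IsAlgClosed k] (c : ZMod p →+* k),
    ∃ pl : Place (AlgebraicClosure ((hspG p hp φ).adicCompletion K)) k,
      (∀ x : 𝓞 K, algebraMap ((hspG p hp φ).adicCompletion K) _
          (algebraMap K ((hspG p hp φ).adicCompletion K) (x : K)) ∈ pl.A ∧
        pl.r (algebraMap ((hspG p hp φ).adicCompletion K) _
          (algebraMap K ((hspG p hp φ).adicCompletion K) (x : K))) = c (φ x)) ∧
      ∀ x : (hspG p hp φ).adicCompletion K,
        algebraMap ((hspG p hp φ).adicCompletion K) _ x ∈ pl.A →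
          ∃ z : ZMod p, pl.r (algebraMap ((hspG p hp φ).adicCompletion K) _ x) = c z

end Pool.Agent.Y213.CT
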