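import Pool.Agent.Y213.CB.Fin2
import Pool.Agent.Y213.T6.SecMain
import Pool.Agent.Y213.CT.Abs
import Pool.Agent.Y213.CT.Stm

/-! Maps of points of elliptic curves given by homomorphisms of fields. -/

set_option autoImplicit false

namespace Pool.Agent.Y213.CT

open MvPolynomial NumberField Pool.Agent.H901R3.MS WeierstrassCurve IsDedekindDomain
open Pool.Agent.Y213.EC Pool.Agent.TH954 Pool.Agent.TH942 Pool.Agent.Y213.BD
open Pool.Agent.Y213.T6 (loc_valG bc_eq shortInt_sw)

/-- `J` is given by `f` on the coordinates -/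
def MapsTo {k k' : Type} [Field k] [Field k'] {W : WeierstrassCurve k} {W' : WeierstrassCurve k'}
    (f : k →+* k') (J : W.toAffine.Point → W'.toAffine.Point) : Prop :=
  ∀ P j, crd (J P) j = f (crd P j)

theorem crd_inj {k : Type} [Field k] {W : WeierstrassCurve k} {P Q : W.toAffine.Point}
    (h : ∀ j, crd P j = crd Q j) : P = Q := by
  rcases P with _ | ⟨x, y, hP⟩ <;> rcases Q with _ | ⟨x', y', hQ⟩
  · rfl
  · exact absurd (h 2) (by simp [TH954.crd])
  · exact absurd (h 2) (by simp [TH954.crd])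
  · have h0 : x = x' := h 0
    have h1 : y = y' := h 1
    subst h0
    subst h1
    rfl

theorem mapsTo_uniq {k k' k'' : Type} [Field k] [Field k'] [Field k''] {W : WeierstrassCurve k}
    {W' : WeierstrassCurve k'} {W'' : WeierstrassCurve k''} {f : k →+* k'} {g : k' →+* k''}
    {e : k →+* k''} {J : W.toAffine.Point → W'.toAffine.Point}
    {J' : W'.toAffine.Point → W''.toAffine.Point} {J'' : W.toAffine.Point → W''.toAffine.Point}
    (hJ : MapsTo f J) (hJ' : MapsTo g J') (hJ'' : MapsTo e J'') (he : ∀ x, e x = g (f x))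
    (P : W.toAffine.Point) : J' (J P) = J'' P := by
  apply crd_inj
  intro j
  rw [hJ', hJ, hJ'', he]

/-- two ways around a square -/
theorem mapsTo_sq {k k' k₁ k'' : Type} [Field k] [Field k'] [Field k₁] [Field k'']
    {W : WeierstrassCurve k} {W' : WeierstrassCurve k'} {W₁ : WeierstrassCurve k₁}
    {W'' : WeierstrassCurve k''} {f : k →+* k'} {g : k' →+* k''} {f₁ : k →+* k₁} {g₁ : k₁ →+* k''}
    {J : W.toAffine.Point → W'.toAffine.Point} {J' : W'.toAffine.Point → W''.toAffine.Point}
    {J₁ : W.toAffine.Point → W₁.toAffine.Point} {J₁' : W₁.toAffine.Point → W''.toAffine.Point}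
    (hJ : MapsTo f J) (hJ' : MapsTo g J') (hJ₁ : MapsTo f₁ J₁) (hJ₁' : MapsTo g₁ J₁')
    (he : ∀ x, g (f x) = g₁ (f₁ x)) (P : W.toAffine.Point) : J' (J P) = J₁' (J₁ P) := by
  apply crd_inj
  intro j
  rw [hJ', hJ, hJ₁', hJ₁, he]

open scoped Classical in
theorem exists_mapsTo {k k' : Type} [Field k] [Field k'] {a b : k} {a' b' : k'}
    (W : WeierstrassCurve k) (W' : WeierstrassCurve k') (hW : W = CV a b) (hW' : W' = CV a' b')
    (f : k →+* k') (ha : f a = a') (hb : f b = b') (hd : Disc a' b') :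
    ∃ J : W.toAffine.Point →+ W'.toAffine.Point, MapsTo f J := by
  subst hW
  subst hW'
  obtain ⟨J, hJ⟩ := exists_map f (a := a) (b := b) ha hb hd
  refine ⟨J, ?_⟩
  intro P j
  rcases P with _ | ⟨x, y, h⟩
  · have h0 : J (Affine.Point.zero : Pt a b) = Affine.Point.zero := map_zero J
    rw [h0]
    fin_cases j <;> simp [TH954.crd]
  · obtain ⟨g, h1⟩ := hJ x y h
    rw [h1]
    fin_cases j <;> simp [TH954.crd]

theorem mapsTo_pm {K : Type} [Field K] {E : WeierstrassCurve K} {L L' : Type} [Field L]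
    [Algebra K L] [Field L'] [Algebra K L'] (f : L →ₐ[K] L') : MapsTo (f : L →+* L') (pm E f) :=
  fun P j => crd_pm f P j

/-- two embeddings of an algebraic closure which agree on the base field -/
theorem gal_of_two {F C : Type} [Field F] [Field C] (f₁ f₂ : AlgebraicClosure F →+* C)
    (h : ∀ x : F, f₁ (algebraMap F (AlgebraicClosure F) x) =
      f₂ (algebraMap F (AlgebraicClosure F) x)) :
    ∃ u : AlgebraicClosure F ≃ₐ[F] AlgebraicClosure F, ∀ x, f₁ x = f₂ (u x) := by
  letI : Algebra (AlgebraicClosure F) C := f₂.toAlgebra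
  letI : Algebra F C := (f₂.comp (algebraMap F (AlgebraicClosure F))).toAlgebra
  haveI : IsScalarTower F (AlgebraicClosure F) C := IsScalarTower.of_algebraMap_eq (fun x => rfl)
  let g₁ : AlgebraicClosure F →ₐ[F] C :=
    { toRingHom := f₁
      commutes' := fun x => h x }
  let r : AlgebraicClosure F →ₐ[F] AlgebraicClosure F := g₁.restrictNormal (AlgebraicClosure F)
  refine ⟨AlgEquiv.ofBijective r (Algebra.IsAlgebraic.algHom_bijective r), fun x => ?_⟩
  exact (g₁.restrictNormal_commutes (AlgebraicClosure F) x).symm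

end Pool.Agent.Y213.CT
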