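import Pool.Agent.Y213.CT.Desc
import Pool.Agent.Y213.CB.SecF

/-! Reduction of traces of local points. -/

set_option autoImplicit false

namespace Pool.Agent.Y213.CT

open MvPolynomial NumberField Pool.Agent.H901R3.MS WeierstrassCurve IsDedekindDomain
open Pool.Agent.Y213.EC Pool.Agent.TH954 Pool.Agent.TH942 Pool.Agent.Y213.BD
open Pool.Agent.Y213.CB
open Pool.Agent.Y213.T6 (loc_valG bc_eq shortInt_sw)

theorem vl_map {O k k' : Type} [CommRing O] [CommRing k] [CommRing k'] (κ : k →+* k')
    (φ : O →+* k) {r n : ℕ} (F : Pol O r n) (V : Fin r → Fin 3 → k) (t : Fin n → k) :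
    vl (κ.comp φ) F (fun i j => κ (V i j)) (fun i => κ (t i)) = κ (vl φ F V t) := by
  unfold vl
  rw [hom_eval₂]
  congr 1
  funext x
  rcases x with ij | i <;> simp

open scoped Classical in
/-- the local data of the trace -/
def TrData {K : Type} [Field K] [NumberField K] (F : Type) [Field F] [NumberField F] [Algebra K F]
    [FiniteDimensional K F] {r : ℕ} (a b : K) (N : ℕ)
    (x : ∀ w : HeightOneSpectrum (𝓞 F), Fin r →
        ((EF a b F).baseChange (w.adicCompletion F)).toAffine.Point)
    (s : Fin r → SPt a b) (v : HeightOneSpectrum (𝓞 K)) : Prop :=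
  ∃ (w : Emb K F → HeightOneSpectrum (𝓞 F))
    (κ : ∀ ε, (w ε).adicCompletion F →+* AlgebraicClosure (v.adicCompletion K))
    (Jκ : ∀ ε, ((EF a b F).baseChange ((w ε).adicCompletion F)).toAffine.Point →+
      AlgPt (sw a b) (v.adicCompletion K))
    (T z : Fin r → ((sw a b).baseChange (v.adicCompletion K)).toAffine.Point),
    (∀ ε, Good v (w ε) (κ ε)) ∧ (∀ ε, MapsTo (κ ε) (Jκ ε)) ∧
    (∀ i, incl (sw a b) (v.adicCompletion K) (T i) = ∑ ε, Jκ ε (x (w ε) i)) ∧
    ∀ i, T i - locHom (L := v.adicCompletion K) (sw a b) (s i) = N • z i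

open scoped Classical in
theorem memberT (hplc : StPlc) {K : Type} [Field K] [NumberField K] {r n q m : ℕ} (a b : 𝓞 K)
    (hd : Disc (a : K) (b : K)) (G : Fin q → Pol (𝓞 K) r n)
    (d : Fin q → Fin r → ℕ) (hG : ∀ e, MHomog (G e) (d e))
    (F : Type) [Field F] [NumberField F] [Algebra K F] [FiniteDimensional K F]
    (hdeg : Module.finrank K F = m + 1) (N : ℕ) (y : Fin n → 𝓞 K)
    (x : ∀ w : HeightOneSpectrum (𝓞 F), Fin r →
        ((EF (a : K) (b : K) F).baseChange (w.adicCompletion F)).toAffine.Point)
    (hx : ∀ w, OnX (mbrF G F (fun i => (y i : K))) (fun i => crd (x w i)))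
    (s : Fin r → SPt (a : K) (b : K)) (hs : ∀ v, TrData F (a : K) (b : K) N x s v)
    (p : ℕ) [Fact p.Prime] (φ : 𝓞 K →+* ZMod p) (hkill : ∀ P : Pt (φ a) (φ b), N • P = 0) :
    RdnAt a b G m p φ y s := by
  intro wK hwK redK hredK k _ _ c hdc jc hjc
  have hp : p ≠ 0 := (Fact.out : p.Prime).ne_zero
  haveI : CharP k p := charP_of_injective_ringHom c.injective p
  obtain ⟨w, κ, Jκ, T, z, hgood, hmaps, hT, hz⟩ := hs (hspG p hp φ)
  obtain ⟨pl, hpl, hplv⟩ := hplc K p hp φ k c
  have hplK : ∀ x : 𝓞 K, algebraMap K (AlgebraicClosure ((hspG p hp φ).adicCompletion K)) (x : K) ∈ pl.A ∧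
      pl.r (algebraMap K (AlgebraicClosure ((hspG p hp φ).adicCompletion K)) (x : K)) = c.comp φ x := by
    intro x
    have h1 := hpl x
    rw [← IsScalarTower.algebraMap_apply K ((hspG p hp φ).adicCompletion K)
      (AlgebraicClosure ((hspG p hp φ).adicCompletion K))] at h1
    exact h1
  obtain ⟨red, hred1, hred2, hred3⟩ := exists_redW' pl
    (a := algebraMap K (AlgebraicClosure ((hspG p hp φ).adicCompletion K)) (a : K))
    (b := algebraMap K (AlgebraicClosure ((hspG p hp φ).adicCompletion K)) (b : K))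
    (a' := c.comp φ a) (b' := c.comp φ b) (hplK a).1 (hplK b).1 (hplK a).2 (hplK b).2 hdc
    ((sw (a : K) (b : K)).baseChange (AlgebraicClosure ((hspG p hp φ).adicCompletion K))) (bc_eq _ _ _)
  -- points over the completion of `K`
  have hkv : ∀ P : ((sw (a : K) (b : K)).baseChange ((hspG p hp φ).adicCompletion K)).toAffine.Point,
      N • red (incl (sw (a : K) (b : K)) ((hspG p hp φ).adicCompletion K) P) = 0 := by
    intro P
    rcases P with _ | ⟨X, Y, h⟩
    · have h0 : incl (sw (a : K) (b : K)) ((hspG p hp φ).adicCompletion K) Affine.Point.zero = 0 := rfl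
      rw [h0, map_zero, smul_zero]
    · obtain ⟨h', h1⟩ : ∃ h', incl (sw (a : K) (b : K)) ((hspG p hp φ).adicCompletion K)
          (Affine.Point.some X Y h) = Affine.Point.some
            (algebraMap ((hspG p hp φ).adicCompletion K) (AlgebraicClosure ((hspG p hp φ).adicCompletion K)) X)
            (algebraMap ((hspG p hp φ).adicCompletion K) (AlgebraicClosure ((hspG p hp φ).adicCompletion K)) Y) h' :=
        ⟨_, rfl⟩
      rw [h1]
      by_cases hX : algebraMap ((hspG p hp φ).adicCompletion K)
          (AlgebraicClosure ((hspG p hp φ).adicCompletion K)) X ∈ pl.A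
      · obtain ⟨hY, g, hg⟩ := hred2 _ _ h' hX
        obtain ⟨X', hX'⟩ := hplv X hX
        obtain ⟨Y', hY'⟩ := hplv Y hY
        have hd' : Disc (φ a) (φ b) := by
          unfold Disc at hdc ⊢
          intro h0
          apply hdc
          have h2 := congrArg c h0
          rw [map_mul, map_add, map_mul, map_mul, map_pow, map_pow, map_ofNat, map_ofNat,
            map_ofNat, map_zero] at h2
          exact h2
        have hns : (CV (φ a) (φ b)).toAffine.Nonsingular X' Y' := by
          rw [nonsingular_iff hd']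
          rw [nonsingular_iff hdc] at g
          unfold Eqn at g ⊢
          rw [hX', hY'] at g
          apply c.injective
          rw [map_pow, map_add, map_add, map_pow, map_mul]
          exact g
        obtain ⟨g', hg'⟩ := hjc X' Y' hns
        have h2 : red (Affine.Point.some _ _ h') = jc (Affine.Point.some X' Y' hns) := by
          rw [hg, hg', Affine.Point.some.injEq]
          exact ⟨hX', hY'⟩
        rw [h2, ← map_nsmul, hkill, map_zero]
      · rw [hred1 _ _ h' hX]
        exact smul_zero _
  -- the global points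
  have hglob : ∀ Q : SPt (a : K) (b : K),
      red (incl (sw (a : K) (b : K)) ((hspG p hp φ).adicCompletion K)
        (locHom (L := (hspG p hp φ).adicCompletion K) (sw (a : K) (b : K)) Q)) = jc (redK Q) := by
    intro Q
    obtain ⟨w₀, hw₀⟩ := exists_place K k p hp (c.comp φ)
    obtain ⟨red₀, hred₀⟩ := exists_red w₀ (a := (a : K)) (b := (b : K))
      (a' := c.comp φ a) (b' := c.comp φ b) (hw₀ a).1 (hw₀ b).1 (hw₀ a).2 (hw₀ b).2 hdc
    have h1 : incl (sw (a : K) (b : K)) ((hspG p hp φ).adicCompletion K)
        (locHom (L := (hspG p hp φ).adicCompletion K) (sw (a : K) (b : K)) Q) =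
        locHom (L := AlgebraicClosure ((hspG p hp φ).adicCompletion K)) (sw (a : K) (b : K)) Q := by
      apply crd_inj
      intro j
      have e1 : crd (incl (sw (a : K) (b : K)) ((hspG p hp φ).adicCompletion K)
        (locHom (L := (hspG p hp φ).adicCompletion K) (sw (a : K) (b : K)) Q)) j =
          algebraMap ((hspG p hp φ).adicCompletion K) (AlgebraicClosure ((hspG p hp φ).adicCompletion K))
            (crd (locHom (L := (hspG p hp φ).adicCompletion K) (sw (a : K) (b : K)) Q) j) := crd_pm _ _ j
      rw [e1, crd_loc', crd_loc', ← IsScalarTower.algebraMap_apply]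
    rw [h1, red_loc K p hp (c.comp φ) w₀ hw₀ (AlgebraicClosure ((hspG p hp φ).adicCompletion K)) pl hplK
      hred₀ red (map_zero red) (fun x y h hx => hred1 x y h hx)
      (fun x y h hx => (hred2 x y h hx).2) Q]
    exact red_cmp K (ZMod p) p hp φ wK hwK K k (RingHom.id K) c w₀ hw₀ hredK hred₀
      (J := id) rfl (fun x y h => ⟨h, rfl⟩) (map_zero jc) hjc Q
  -- the number of embeddings
  have hcard : Nat.card (Emb K F) = m + 1 := by
    have h1 := AlgHom.card K F (AlgebraicClosure K)
    exact (@Nat.card_eq_fintype_card _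
      (minpoly.AlgHom.fintype K F (AlgebraicClosure K))).trans (h1.trans hdeg)
  obtain ⟨e⟩ : Nonempty (Fin (m + 1) ≃ Emb K F) := by
    have h1 : Fintype.card (Emb K F) = m + 1 := by
      rw [← Nat.card_eq_fintype_card]
      exact hcard
    exact ⟨(Fintype.equivFinOfCardEq h1).symm⟩
  refine ⟨fun j i => red (Jκ (e j) (x (w (e j)) i)), ?_, ?_⟩
  · intro j t
    have h5 := (onX_mbrF G F _ _).1 (hx (w (e j))) t
    have h55 := congrArg (κ (e j)) h5
    rw [map_zero, ← vl_map] at h55
    choose u hu0 hu using fun i => hred3 (Jκ (e j) (x (w (e j)) i))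
    have h6 := (loc_valG pl ((algebraMap K (AlgebraicClosure ((hspG p hp φ).adicCompletion K))).comp
      (algebraMap (𝓞 K) K)) (c.comp φ) (fun x => hplK x)
      ((algebraMap K (AlgebraicClosure ((hspG p hp φ).adicCompletion K))).comp
      (algebraMap (𝓞 K) K)) (c.comp φ)
      (fun x => hplK x) (fun i => crd (Jκ (e j) (x (w (e j)) i)))
      (fun i => rep (red (Jκ (e j) (x (w (e j)) i)))) u hu (G t) (d t) (hG t) y).2
    have h7 : vl ((algebraMap K (AlgebraicClosure ((hspG p hp φ).adicCompletion K))).comp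
        (algebraMap (𝓞 K) K))
        (G t) (fun i => crd (Jκ (e j) (x (w (e j)) i))) (fun i =>
        ((algebraMap K (AlgebraicClosure ((hspG p hp φ).adicCompletion K))).comp
        (algebraMap (𝓞 K) K)) (y i)) = 0 := by
      rw [← h55]
      congr 1
      · apply RingHom.ext
        intro x
        exact ((hgood (e j)).1 (x : K)).symm
      · funext i l
        exact hmaps (e j) (x (w (e j)) i) l
      · funext i
        exact ((hgood (e j)).1 (y i : K)).symm
    rw [h7, mul_zero, Place.r_zero] at h6
    exact h6.symm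
  · intro i
    have h1 : ∑ j, red (Jκ (e j) (x (w (e j)) i)) = red (incl (sw (a : K) (b : K))
        ((hspG p hp φ).adicCompletion K) (T i)) := by
      rw [hT, map_sum]
      exact e.sum_comp (fun ε => red (Jκ ε (x (w ε) i)))
    have h2 : T i = locHom (L := (hspG p hp φ).adicCompletion K) (sw (a : K) (b : K)) (s i) + N • z i := by
      rw [← hz]
      abel
    beta_reduce
    rw [h1, h2, incl_add, incl_nsmul, map_add, map_nsmul, hkv, add_zero, hglob]

end Pool.Agent.Y213.CT
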