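import Pool.Agent.Y213.CT.FinS

/-! Sections of finite level over an extension give coverings with local points. -/

set_option autoImplicit false
set_option linter.unusedSectionVars false

namespace Pool.Agent.Y213.CT

open MvPolynomial NumberField Pool.Agent.H901R3.MS WeierstrassCurve IsDedekindDomain
open Pool.Agent.Y213.EC Pool.Agent.TH954 Pool.Agent.TH942 Pool.Agent.Y213.BD
open Pool.Agent.Y213.CB Pool.Agent.W620.SC
open Pool.Agent.Y213.T6 (loc_valG bc_eq shortInt_sw)

section near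

variable {K : Type} [Field K] [NumberField K] {M : Type} [Field M] [Algebra K M] {a b : K}

open scoped Classical in
theorem points_coverN {n : ℕ}
    (S : Set (MvPolynomial (Fin n × Fin 3) K)) (hS : ∀ f ∈ S, ∃ d, MultiHom d f)
    (A : SAct K M) (P : Fin n → ((sw a b).baseChange M).toAffine.Point)
    (hPS : OnX S (fun i => crd (P i)))
    (hP : ∀ i τ, A.pt a b τ (P i) = P i)
    (N : ℕ) (hdiv : ∀ i, ∃ Q, N • Q = P i)
    (htor : ∀ T : ((sw a b).baseChange M).toAffine.Point, N • T = 0 →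
      ∃ T0, pm (sw a b) A.j T0 = T)
    (pl : ∀ v : HeightOneSpectrum (𝓞 K), Plc K M (AlgebraicClosure (v.adicCompletion K)))
    (hpl : ∀ v, GeoPlc A (pl v))
    (red : ∀ v : HeightOneSpectrum (𝓞 K), ((sw a b).baseChange M).toAffine.Point →+
      AlgPt (sw a b) (v.adicCompletion K))
    (h1 : ∀ v x y h, x ∉ (pl v).W → red v (.some x y h) = 0)
    (h2 : ∀ v x y h (hx : x ∈ (pl v).W), ∃ (hy : y ∈ (pl v).W)
      (h' : ((sw a b).baseChange (AlgebraicClosure (v.adicCompletion K))).toAffine.Nonsingular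
        ((pl v).ρ ⟨x, hx⟩) ((pl v).ρ ⟨y, hy⟩)), red v (.some x y h) = .some _ _ h') :
    ∃ ξ : Fin n → (AlgebraicClosure K ≃ₐ[K] AlgebraicClosure K) → AlgPt (sw a b) K,
      (∀ i, IsCocycle (sw a b) (ξ i)) ∧ (∀ i σ, N • ξ i σ = 0) ∧
      ∀ v : HeightOneSpectrum (𝓞 K), CoverPoint (sw a b) S N ξ (v.adicCompletion K) := by
  have hch : ∀ v : HeightOneSpectrum (𝓞 K), CharZero (v.adicCompletion K) := fun v =>
    charZero_of_injective_algebraMap (algebraMap K (v.adicCompletion K)).injective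
  -- the local points
  have hfix : ∀ v i, ∃ z, incl (sw a b) (v.adicCompletion K) z = red v (P i) := by
    intro v i
    refine exists_of_fixed _ (fun σ => ?_)
    obtain ⟨τ, hτ⟩ := exists_compat ((pl v).iot A.j) σ
    have h3 := red_act (pl := pl v) (a := a) (b := b) (red := red v) (map_zero (red v)) (h1 v)
      (h2 v) ((A.s τ : M ≃ₐ[K] M) : M →ₐ[K] M)
      ((σ : AlgebraicClosure (v.adicCompletion K) →ₐ[v.adicCompletion K]
        AlgebraicClosure (v.adicCompletion K)).restrictScalars K)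
      (fun x => hpl v σ τ hτ x) (P i)
    have h4 := hP i τ
    unfold SAct.pt at h4
    rw [h4] at h3
    exact h3.symm
  choose Pv hPv using hfix
  have hPX : ∀ v, OnX S (fun i => crd (Pv v i)) := by
    intro v
    have h3 : OnX S (fun i => crd (red v (P i))) :=
      onX_red (pl v) hS (fun i => red_crd (pl := pl v) (red := red v) (map_zero (red v))
        (h1 v) (h2 v) (P i)) hPS
    intro f hf
    have h4 := h3 f hf
    have h5 : ∀ p : Fin n × Fin 3, crd (red v (P p.1)) p.2 =
        algebraMap (v.adicCompletion K) (AlgebraicClosure (v.adicCompletion K))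
          (crd (Pv v p.1) p.2) := by
      intro p
      rw [← hPv v p.1]
      exact crd_pm _ _ _
    have h7 := aeval_algebraMap_apply (AlgebraicClosure (v.adicCompletion K))
      (fun p : Fin n × Fin 3 => crd (Pv v p.1) p.2) f
    simp only [h5] at h4
    have h8 := h7.symm.trans h4
    exact (map_eq_zero _).1 h8
  choose Q hQ using hdiv
  have hcoc : ∀ i, ∃ ξ : (AlgebraicClosure K ≃ₐ[K] AlgebraicClosure K) → AlgPt (sw a b) K,
      IsCocycle (sw a b) ξ ∧ (∀ σ, N • ξ σ = 0) ∧
      ∀ σ, pm (sw a b) A.j (ξ σ) = A.pt a b σ (Q i) - Q i := fun i =>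
    exists_cocycle A (hQ i) (hP i) htor
  choose ξ hξ hξN hξj using hcoc
  refine ⟨ξ, hξ, hξN, fun v => ⟨(pl v).iot A.j, Pv v, fun i => red v (Q i), hPX v, ?_, ?_⟩⟩
  · intro i
    rw [hPv, ← hQ i]
    exact (map_nsmul (red v) _ _).symm
  · intro i σ τ hστ
    exact (cocycle_local A (hpl v) (h1 v) (h2 v) (hξj i)).1 σ τ hστ

end near

section sec

variable {K : Type} [Field K] [NumberField K] {F Ω M B : Type} [Field F] [Field Ω] [Field M]
  [Field B] [Algebra K F] [Algebra F Ω] [Algebra K Ω] [IsScalarTower K F Ω] [Algebra F M]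
  [Algebra K M] [IsScalarTower K F M] [Algebra K B] [IsAlgClosure F Ω] [IsAlgClosure K B]

open scoped Classical in
theorem sec_coverN {a b : K} (hE : ShortInt (sw a b)) {n : ℕ}
    (S : Set (MvPolynomial (Fin n × Fin 3) K)) (hS : ∀ f ∈ S, ∃ d, MultiHom d f)
    (e : M →ₐ[F] Ω)
    (P : Fin n → ((sw a b).baseChange F).toAffine.Point)
    (hPS : OnX S (fun i => crd (P i))) (s : GalSection K F M B)
    (p : ∀ v : HeightOneSpectrum (𝓞 K), Plc K M (AlgebraicClosure (v.adicCompletion K)))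
    (hp : ∀ v, s.GivenBy (v.adicCompletion K) (p v)) (N : ℕ) (hN : 1 ≤ N)
    (hdiv : ∀ i, ∃ Q : ((sw a b).baseChange M).toAffine.Point,
      N • Q = pm (sw a b) (IsScalarTower.toAlgHom K F M) (P i)) :
    ∃ ξ : Fin n → (AlgebraicClosure K ≃ₐ[K] AlgebraicClosure K) → AlgPt (sw a b) K,
      (∀ i, IsCocycle (sw a b) (ξ i)) ∧ (∀ i σ, N • ξ i σ = 0) ∧
      ∀ v : HeightOneSpectrum (𝓞 K), CoverPoint (sw a b) S N ξ (v.adicCompletion K) := by
  have hΩ1 : IsAlgClosed Ω := IsAlgClosure.isAlgClosed F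
  have hΩ2 : Algebra.IsAlgebraic F Ω := IsAlgClosure.isAlgebraic
  have hMalg : Algebra.IsAlgebraic F M := Algebra.IsAlgebraic.of_injective e e.injective
  have hD : 4 * a ^ 3 + 27 * b ^ 2 ≠ 0 := hE.disc
  have hcΩ : CharZero Ω := charZero_of_injective_algebraMap (algebraMap K Ω).injective
  have hcv : ∀ v : HeightOneSpectrum (𝓞 K), CharZero (v.adicCompletion K) := fun v =>
    charZero_of_injective_algebraMap (algebraMap K (v.adicCompletion K)).injective
  have hcv' : ∀ v : HeightOneSpectrum (𝓞 K), CharZero (AlgebraicClosure (v.adicCompletion K)) :=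
    fun v => charZero_of_injective_algebraMap
      (algebraMap (v.adicCompletion K) (AlgebraicClosure (v.adicCompletion K))).injective
  set A := toSAct s with hA
  have hpl : ∀ v, GeoPlc A (p v) := by
    intro v σ τ hστ x
    refine hp v σ ((eqv K B).autCongr τ) ?_ x _ ⟨x.2, rfl⟩
    intro z c hc
    obtain ⟨y, rfl⟩ := (eqv K B).surjective z
    have e1 : (p v).val (A.j y) ((p v).iot A.j y) := Plc.val_j _ y
    have e2 : (p v).val (A.j (τ y)) ((p v).iot A.j (τ y)) := Plc.val_j _ (τ y)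
    have e3 : s.j ((eqv K B).autCongr τ (eqv K B y)) = A.j (τ y) := by
      change s.j (eqv K B (τ ((eqv K B).symm (eqv K B y)))) = _
      rw [AlgEquiv.symm_apply_apply]
      rfl
    have e4 : (p v).iot A.j y = c := e1.unique hc
    rw [e3, ← e4, ← hστ y]
    exact e2
  have hAF : ∀ (τ : AlgebraicClosure K ≃ₐ[K] AlgebraicClosure K) (x : F),
      A.s τ (algebraMap F M x) = algebraMap F M x :=
    fun τ x => (s.s ((eqv K B).autCongr τ)).commutes x
  set P' : Fin n → ((sw a b).baseChange M).toAffine.Point :=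
    fun i => pm (sw a b) (IsScalarTower.toAlgHom K F M) (P i) with hP'
  have hP'S : OnX S (fun i => crd (P' i)) := onX_pm _ hPS
  have hP'f : ∀ i τ, A.pt a b τ (P' i) = P' i := by
    intro i τ
    change pm (sw a b) _ (pm (sw a b) _ (P i)) = pm (sw a b) _ (P i)
    rw [pm_pm]
    congr 2
    apply AlgHom.ext
    intro x
    exact hAF τ x
  choose red h1 h2 using fun v => exists_redM (p v) hD
  exact points_coverN S hS A P' hP'S hP'f N hdiv
    (fun T hT => torsion_mem_sub hD (e.restrictScalars K) A.j N hN T hT) p hpl red h1 h2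

end sec


open scoped Classical in
theorem hs_of_section (hemb : StEmb) (hgal : StGal) (huni : StUni) (hplc : StPlc)
    {K : Type} [Field K] [NumberField K] {r n q : ℕ} (a b : 𝓞 K)
    (hd : 4 * a ^ 3 + 27 * b ^ 2 ≠ 0) (G : Fin q → Pol (𝓞 K) r n)
    (d : Fin q → Fin r → ℕ) (kk : Fin q → ℕ) (hG : ∀ e, MHomog (G e) (d e))
    (hX : ∀ e, XHomog (G e) (kk e)) {M0 : ℕ}
    (hM : ShaKilledBy (sw (a : K) (b : K)) M0) (m : ℕ) (y : Fin n → K) (L : ℕ)
    (hL : 1 ≤ M0 * 2 * L)
    (F : Type) [Field F] [NumberField F] [Algebra K F] (hdeg : Module.finrank K F = m + 1)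
    {F' Ω M B : Type} [Field F'] [Field Ω] [Field M]
    [Field B] [Algebra F F'] [Algebra F' Ω] [Algebra F Ω] [IsScalarTower F F' Ω] [Algebra F' M]
    [Algebra F M] [IsScalarTower F F' M] [Algebra F B] [IsAlgClosure F' Ω] [IsAlgClosure F B]
    (e : M →ₐ[F'] Ω)
    (P : Fin r → ((sw (algebraMap K F a) (algebraMap K F b)).baseChange F').toAffine.Point)
    (hPS : OnX (mbrF G F y) (fun i => crd (P i)))
    (hdiv : ∀ i, ∃ Q : ((sw (algebraMap K F a) (algebraMap K F b)).baseChange M).toAffine.Point,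
      (M0 * 2 * L) • Q = pm (sw (algebraMap K F a) (algebraMap K F b))
        (IsScalarTower.toAlgHom F F' M) (P i))
    (s : GalSection F F' M B)
    (p : ∀ v : HeightOneSpectrum (𝓞 F), Plc F M (AlgebraicClosure (v.adicCompletion F)))
    (hp : ∀ v, s.GivenBy (v.adicCompletion F) (p v)) : HS a b G m L y := by
  have hinj : Function.Injective (algebraMap (𝓞 K) (𝓞 F)) :=
    FaithfulSMul.algebraMap_injective (𝓞 K) (𝓞 F)
  set aF : 𝓞 F := algebraMap (𝓞 K) (𝓞 F) a with haF
  set bF : 𝓞 F := algebraMap (𝓞 K) (𝓞 F) b with hbF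
  have hdF : 4 * aF ^ 3 + 27 * bF ^ 2 ≠ 0 := by
    intro h0
    apply hd
    apply hinj
    rw [map_zero, ← h0, haF, hbF]
    simp only [map_add, map_mul, map_pow, map_ofNat]
  have hE : ShortInt (sw (algebraMap K F a) (algebraMap K F b)) := shortInt_sw aF bF hdF
  obtain ⟨ξ, h1, h2, h3⟩ := sec_coverN hE (mbrF G F y) (mbrF_multiHom G d hG F y) e P hPS s p hp
    (M0 * 2 * L) hL hdiv
  exact hs_of_cover hemb hgal huni hplc a b (disc_ne hd) G d kk hG hX hM F hdeg y L ξ h1 h2 h3

end Pool.Agent.Y213.CT
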